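import Pool.Agent.Lib.MP_edb5be_nt.ND.Iface
import Pool.Agent.Lib.MP_0a5adf_nt.H60.LogWin

/-!
Module S1B (project ND): from the residues modulo `3 ^ s` to the residues modulo `3 ^ m`.
(helper82)
-/

set_option autoImplicit false

namespace Pool.Agent.Lib.MP_edb5be_nt.ND.H82

open Finset Pool.Agent.Lib.MP_0a5adf_nt.TP Pool.Agent.Lib.MP_0a5adf_nt.TP.H60

/-! ### Generalities -/

theorem sum_eq_of_supp {U V : Finset ℕ} {F : ℕ → ℝ} (h1 : ∀ M ∈ U, F M ≠ 0 → M ∈ V)
    (h2 : ∀ M ∈ V, F M ≠ 0 → M ∈ U) : ∑ M ∈ U, F M = ∑ M ∈ V, F M := by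
  classical
  have e1 : ∑ M ∈ U ∩ V, F M = ∑ M ∈ U, F M := by
    refine Finset.sum_subset Finset.inter_subset_left fun M hM hn => ?_
    by_contra hc
    exact hn (Finset.mem_inter.2 ⟨hM, h1 M hM hc⟩)
  have e2 : ∑ M ∈ U ∩ V, F M = ∑ M ∈ V, F M := by
    refine Finset.sum_subset Finset.inter_subset_right fun M hM hn => ?_
    by_contra hc
    exact hn (Finset.mem_inter.2 ⟨h2 M hM hc, hM⟩)
  rw [← e1, e2]

theorem rpow_logb_two {M : ℕ} (hM : 0 < M) : (2 : ℝ) ^ (Real.logb 2 M) = M :=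
  Real.rpow_logb (by norm_num) (by norm_num) (by exact_mod_cast hM)

/-- `M` lies in the block if its logarithm is in the right interval. -/
theorem mem_blk_of_logb {M a l : ℕ} (hM : 0 < M) (h1 : (a : ℝ) ≤ Real.logb 2 M)
    (h2 : Real.logb 2 M < (a : ℝ) + l) : M ∈ blk a l := by
  have e := rpow_logb_two hM
  refine Finset.mem_Ico.2 ⟨?_, ?_⟩
  · have h3 : (2 : ℝ) ^ (a : ℝ) ≤ M := by
      rw [← e]
      exact Real.rpow_le_rpow_of_exponent_le (by norm_num) h1
    rw [Real.rpow_natCast] at h3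
    exact_mod_cast h3
  · have h3 : (M : ℝ) < (2 : ℝ) ^ (((a + l : ℕ) : ℝ)) := by
      rw [← e]
      refine Real.rpow_lt_rpow_of_exponent_lt (by norm_num) ?_
      push_cast
      exact h2
    rw [Real.rpow_natCast] at h3
    exact_mod_cast h3

theorem pos_of_mem_blk {M a l : ℕ} (h : M ∈ blk a l) : 0 < M :=
  lt_of_lt_of_le (by positivity) (Finset.mem_Ico.1 h).1

theorem mem_upto {t : ℝ} {M : ℕ} (hM : 0 < M) (h : Real.logb 2 M ≤ t + 1) : M ∈ upto t := by
  refine Finset.mem_Icc.2 ⟨hM, Nat.le_floor ?_⟩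
  rw [← rpow_logb_two hM]
  exact Real.rpow_le_rpow_of_exponent_le (by norm_num) h

theorem pos_of_mem_upto {t : ℝ} {M : ℕ} (h : M ∈ upto t) : 0 < M := (Finset.mem_Icc.1 h).1

theorem bump_mem {L : ℝ} {g : ℝ → ℝ} (hg : Bump L g) {x : ℝ} (h : g x ≠ 0) : 0 ≤ x ∧ x ≤ 1 :=
  by_contra fun hc => h (hg.supp x hc)

theorem mem_typ {i D s : ℕ} (hs : s ∈ typ i D) :
    s ≤ i ∧ (i : ℝ) - D ≤ 2 * s ∧ 2 * (s : ℝ) ≤ i + D := by
  obtain ⟨h1, h2⟩ := Finset.mem_filter.1 hs
  have h3 := abs_le.1 h2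
  refine ⟨by have := Finset.mem_range.1 h1; omega, by linarith, by linarith⟩

/-- The window. -/
theorem window {z : ℝ} {i D k s M : ℕ} (hs : s ∈ typ i D) (hk : k = ⌊z - mu * i⌋₊)
    (h0 : 0 ≤ z - mu * i) (hkD : 2 * D ≤ k) (hM : 0 < M)
    (h1 : 0 ≤ Real.logb 2 M + i - th * s - z) (h2 : Real.logb 2 M + i - th * s - z ≤ 1) :
    M ∈ blk (k - 2 * D) (4 * D + 4) := by
  obtain ⟨-, h3, h4⟩ := mem_typ hs
  have hk1 : (k : ℝ) ≤ z - mu * i := by
    rw [hk]
    exact Nat.floor_le h0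
  have hk2 : z - mu * i < k + 1 := by
    rw [hk]
    exact Nat.lt_floor_add_one _
  have hth := th_lt
  have hth' := th_gt
  have hmu : mu = 1 - th / 2 := rfl
  have hD0 : (0 : ℝ) ≤ D := Nat.cast_nonneg D
  have e1 : th * ((i : ℝ) - D) ≤ th * (2 * s) := mul_le_mul_of_nonneg_left h3 (by linarith)
  have e2 : th * (2 * (s : ℝ)) ≤ th * (i + D) := mul_le_mul_of_nonneg_left h4 (by linarith)
  have e3 : th * (D : ℝ) ≤ 8 / 5 * D := mul_le_mul_of_nonneg_right hth.le hD0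
  have e4 : mu * (i : ℝ) = i - th * i / 2 := by rw [hmu]; ring
  have e5 : ((k - 2 * D : ℕ) : ℝ) = k - 2 * D := by
    rw [Nat.cast_sub hkD]
    push_cast
    ring
  refine mem_blk_of_logb hM ?_ ?_
  · rw [e5]
    nlinarith
  · rw [e5]
    push_cast
    nlinarith

/-! ### The masses with the residues modulo `3 ^ m` -/

open Classical in
/-- The mass for a given number of odd steps. -/
noncomputable def Es (d : Bool) (B : Set ℕ) (g : ℝ → ℝ) (m i s : ℕ) (t : ℝ) : ℝ :=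
  ∑ M ∈ (upto t).filter (fun M => M ∈ B),
    g (Real.logb 2 M - t) / M * (3 ^ m * Pc m i s (sg d * M))

theorem Pc_nonneg (m i s : ℕ) (M : ℤ) : 0 ≤ Pc m i s M := by
  unfold Pc
  positivity

open Classical in
/-- The sum over the window is the sum over all of `B`. -/
theorem Es_eq {d : Bool} {B : Set ℕ} {g : ℝ → ℝ} {L z : ℝ} (hg : Bump L g) {i m D k s : ℕ}
    (hs : s ∈ typ i D) (hk : k = ⌊z - mu * i⌋₊) (h0 : 0 ≤ z - mu * i) (hkD : 2 * D ≤ k) :
    ∑ M ∈ (blk (k - 2 * D) (4 * D + 4)).filter (fun M => M ∈ B), 1 / (M : ℝ) *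
      (3 ^ m * Pc m i s (sg d * M) * g (Real.logb 2 M + i - th * s - z)) =
      Es d B g m i s (z - i + th * s) := by
  classical
  have e : ∀ M : ℕ, g (Real.logb 2 M - (z - i + th * s)) / M * (3 ^ m * Pc m i s (sg d * M)) =
      1 / (M : ℝ) * (3 ^ m * Pc m i s (sg d * M) * g (Real.logb 2 M + i - th * s - z)) := by
    intro M
    have : Real.logb 2 M - (z - i + th * s) = Real.logb 2 M + i - th * s - z := by ring
    rw [this]
    ring
  unfold Es
  rw [Finset.sum_congr rfl fun M _ => e M]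
  refine sum_eq_of_supp (fun M hM hF => ?_) (fun M hM hF => ?_)
  · obtain ⟨h1, h2⟩ := Finset.mem_filter.1 hM
    have hM0 := pos_of_mem_blk h1
    have hg0 : g (Real.logb 2 M + i - th * s - z) ≠ 0 := by
      intro hc
      rw [hc, mul_zero, mul_zero] at hF
      exact hF rfl
    obtain ⟨h3, h4⟩ := bump_mem hg hg0
    exact Finset.mem_filter.2 ⟨mem_upto hM0 (by linarith), h2⟩
  · obtain ⟨h1, h2⟩ := Finset.mem_filter.1 hM
    have hM0 := pos_of_mem_upto h1
    have hg0 : g (Real.logb 2 M + i - th * s - z) ≠ 0 := by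
      intro hc
      rw [hc, mul_zero, mul_zero] at hF
      exact hF rfl
    obtain ⟨h3, h4⟩ := bump_mem hg hg0
    exact Finset.mem_filter.2 ⟨window hs hk h0 hkD hM0 h3 h4, h2⟩

/-- Trivial bound. -/
theorem Es_le (hphi : PhiStatement) {d : Bool} {B : Set ℕ} {g : ℝ → ℝ} {L t : ℝ}
    (hg : Bump L g) {i m s : ℕ} (ht : 0 ≤ t) (h3 : 3 ^ m ≤ 2 ^ ⌊t⌋₊) :
    |Es d B g m i s t| ≤ 6 * ((i.choose s : ℝ) / 2 ^ i) := by
  classical
  have h1 := hphi.2.2.1 d m i s ⌊t⌋₊ 2 h3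
  have hf1 : (⌊t⌋₊ : ℝ) ≤ t := Nat.floor_le ht
  have hf2 : t < ⌊t⌋₊ + 1 := Nat.lt_floor_add_one t
  have hnn : ∀ M : ℕ, 0 ≤ 1 / (M : ℝ) * (3 ^ m * Pc m i s (sg d * M)) := by
    intro M
    have := Pc_nonneg m i s (sg d * M)
    positivity
  have hterm : ∀ M : ℕ, |g (Real.logb 2 M - t) / M * (3 ^ m * Pc m i s (sg d * M))| ≤
      2 * (1 / (M : ℝ) * (3 ^ m * Pc m i s (sg d * M))) := by
    intro M
    have e : g (Real.logb 2 M - t) / M * (3 ^ m * Pc m i s (sg d * M)) =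
        g (Real.logb 2 M - t) * (1 / (M : ℝ) * (3 ^ m * Pc m i s (sg d * M))) := by ring
    rw [e, abs_mul, abs_of_nonneg (hnn M)]
    exact mul_le_mul_of_nonneg_right (hg.bd _) (hnn M)
  calc |Es d B g m i s t|
      ≤ ∑ M ∈ (upto t).filter (fun M => M ∈ B),
        |g (Real.logb 2 M - t) / M * (3 ^ m * Pc m i s (sg d * M))| := by
        unfold Es
        exact Finset.abs_sum_le_sum_abs _ _
    _ = ∑ M ∈ ((upto t).filter (fun M => M ∈ B)).filter (fun M => M ∈ blk ⌊t⌋₊ 2),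
        |g (Real.logb 2 M - t) / M * (3 ^ m * Pc m i s (sg d * M))| := by
        symm
        refine Finset.sum_filter_of_ne fun M hM hF => ?_
        have hM0 := pos_of_mem_upto (Finset.mem_filter.1 hM).1
        have hg0 : g (Real.logb 2 M - t) ≠ 0 := by
          intro hc
          rw [hc, zero_div, zero_mul, abs_zero] at hF
          exact hF rfl
        obtain ⟨h4, h5⟩ := bump_mem hg hg0
        refine mem_blk_of_logb hM0 (by linarith) ?_
        push_cast
        linarith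
    _ ≤ ∑ M ∈ ((upto t).filter (fun M => M ∈ B)).filter (fun M => M ∈ blk ⌊t⌋₊ 2),
        2 * (1 / (M : ℝ) * (3 ^ m * Pc m i s (sg d * M))) :=
        Finset.sum_le_sum fun M _ => hterm M
    _ ≤ ∑ M ∈ blk ⌊t⌋₊ 2, 2 * (1 / (M : ℝ) * (3 ^ m * Pc m i s (sg d * M))) := by
        refine Finset.sum_le_sum_of_subset_of_nonneg ?_ fun M _ _ => by
          have := hnn M
          linarith
        intro M hM
        exact (Finset.mem_filter.1 hM).2
    _ = 2 * ∑ M ∈ blk ⌊t⌋₊ 2, 1 / (M : ℝ) * (3 ^ m * Pc m i s (sg d * M)) := by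
        rw [Finset.mul_sum]
    _ ≤ 6 * ((i.choose s : ℝ) / 2 ^ i) := by
        push_cast at h1
        linarith

/-- PSPLIT for the masses. -/
theorem Es_split (hps : PsplitStatement) (d : Bool) (B : Set ℕ) (g : ℝ → ℝ) {m i s : ℕ}
    (hms : m ≤ s) (t : ℝ) :
    Es d B g m i s t = ∑ c ∈ range (i + 1), bw (i - c) (s - m) * Rm d B g m c t := by
  classical
  unfold Es Rm bw
  simp_rw [hps m i s _ hms, Finset.mul_sum]
  rw [Finset.sum_comm]
  refine Finset.sum_congr rfl fun c _ => Finset.sum_congr rfl fun M _ => ?_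
  ring

theorem Fam_eq_empty {m c : ℕ} (h : c < m) : Fam m c = ∅ := by
  unfold Fam
  have : powersetCard m (Icc 1 c) = ∅ := by
    refine Finset.powersetCard_eq_empty.2 ?_
    rw [Nat.card_Icc]
    omega
  rw [this, Finset.filter_empty]

theorem Rm_eq_zero (d : Bool) (B : Set ℕ) (g : ℝ → ℝ) {m c : ℕ} (h : c < m) (t : ℝ) :
    Rm d B g m c t = 0 := by
  classical
  unfold Rm f
  rw [Fam_eq_empty h]
  simp

/-- The sum over `s ∈ [m, i]`. -/
theorem sum_Es (hps : PsplitStatement) (d : Bool) (B : Set ℕ) (g : ℝ → ℝ) {m i : ℕ}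
    (hmi : m ≤ i) (z : ℝ) :
    ∑ s ∈ Icc m i, Es d B g m i s (z - i + th * s) =
      ∑ c ∈ range (i + 1), PJ (i - c) (Rm d B g m c) (z - c + th * m) := by
  have e1 : ∑ s ∈ Icc m i, Es d B g m i s (z - i + th * s) =
      ∑ s ∈ Icc m i, ∑ c ∈ range (i + 1), bw (i - c) (s - m) * Rm d B g m c (z - i + th * s) :=
    Finset.sum_congr rfl fun s hs => Es_split hps d B g (Finset.mem_Icc.1 hs).1 _
  rw [e1, Finset.sum_comm]
  refine Finset.sum_congr rfl fun c hc => ?_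
  have hci : c ≤ i := by
    have := Finset.mem_range.1 hc
    omega
  have e2 : Icc m i = Ico m (i + 1) := by
    ext x
    simp only [Finset.mem_Icc, Finset.mem_Ico]
    omega
  rw [e2, Finset.sum_Ico_eq_sum_range]
  unfold PJ
  rcases lt_or_ge c m with hcm | hcm
  · rw [Finset.sum_eq_zero fun v _ => by rw [Rm_eq_zero d B g hcm, mul_zero],
      Finset.sum_eq_zero fun v _ => by rw [Rm_eq_zero d B g hcm, mul_zero]]
  · have hsub : range (i - c + 1) ⊆ range (i + 1 - m) :=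
      Finset.range_subset_range.2 (by omega)
    rw [← Finset.sum_subset hsub]
    · refine Finset.sum_congr rfl fun v hv => ?_
      rw [Nat.add_sub_cancel_left]
      congr 2
      rw [Nat.cast_sub hci]
      push_cast
      ring
    · intro v _ hv
      have h1 : i - c < v := by
        by_contra hc'
        exact hv (Finset.mem_range.2 (by omega))
      unfold bw
      rw [Nat.add_sub_cancel_left, Nat.choose_eq_zero_of_lt h1, Nat.cast_zero, zero_div, zero_mul]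

/-- The non-typical numbers of odd steps. -/
theorem nontyp (hh : HoeffStatement) (m i D : ℕ) :
    ∑ s ∈ Icc m i \ typ i D, (i.choose s : ℝ) / 2 ^ i ≤
      2 * Real.exp (-((D : ℝ) ^ 2 / (2 * i))) := by
  have h1 := hh i ((D : ℝ) / 2) (by positivity)
  have e : 2 * ((D : ℝ) / 2) ^ 2 / i = (D : ℝ) ^ 2 / (2 * i) := by
    rcases Nat.eq_zero_or_pos i with hi | hi
    · subst hi
      simp
    · have : (i : ℝ) ≠ 0 := by positivity
      field_simp
  rw [e] at h1
  have hsub : Icc m i \ typ i D ⊆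
      (range (i + 1)).filter (fun k : ℕ => (D : ℝ) / 2 ≤ |(k : ℝ) - i / 2|) := by
    intro s hs
    obtain ⟨h2, h3⟩ := Finset.mem_sdiff.1 hs
    have h4 := (Finset.mem_Icc.1 h2).2
    have h5 : s ∈ range (i + 1) := Finset.mem_range.2 (by omega)
    refine Finset.mem_filter.2 ⟨h5, ?_⟩
    have h6 : ¬ |2 * (s : ℝ) - i| ≤ D := fun hc => h3 (Finset.mem_filter.2 ⟨h5, hc⟩)
    have h7 : |2 * (s : ℝ) - i| = 2 * |(s : ℝ) - i / 2| := by
      rw [← abs_of_pos (show (0 : ℝ) < 2 by norm_num), ← abs_mul]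
      congr 1
      rw [abs_of_pos (show (0 : ℝ) < 2 by norm_num)]
      ring
    rw [h7] at h6
    linarith
  rw [← Finset.sum_div, div_le_iff₀ (by positivity)]
  calc ∑ s ∈ Icc m i \ typ i D, (i.choose s : ℝ) ≤
      ∑ k ∈ (range (i + 1)).filter (fun k : ℕ => (D : ℝ) / 2 ≤ |(k : ℝ) - i / 2|),
        (i.choose k : ℝ) :=
        Finset.sum_le_sum_of_subset_of_nonneg hsub fun _ _ _ => by positivity
    _ ≤ _ := h1
    _ = _ := by ring

/-! ### From `3 ^ s` to `3 ^ m` -/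

open Classical in
/-- The first error term. -/
theorem mix_err (hmix : MixStatement) {C₄ : ℝ} (hC : 0 < C₄)
    (hjosc : ∀ n c₁ : ℕ, 1 ≤ n → Josc n c₁ ≤ C₄ / (n : ℝ) ^ 4) {d : Bool} {B : Set ℕ}
    {g : ℝ → ℝ} {L z : ℝ} (hg : Bump L g) {i m D k : ℕ} (hm : 1 ≤ m)
    (hs : ∀ s ∈ typ i D, m ≤ s ∧ 3 ^ s ≤ 2 ^ (k - 2 * D)) :
    |∑ M ∈ (blk (k - 2 * D) (4 * D + 4)).filter (fun M => M ∈ B), 1 / (M : ℝ) *
        ∑ s ∈ typ i D, 3 ^ s * Pc s i s (sg d * M) * g (Real.logb 2 M + i - th * s - z) -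
      ∑ s ∈ typ i D, ∑ M ∈ (blk (k - 2 * D) (4 * D + 4)).filter (fun M => M ∈ B),
        1 / (M : ℝ) * (3 ^ m * Pc m i s (sg d * M) * g (Real.logb 2 M + i - th * s - z))| ≤
      2 * (((i : ℝ) + 1) * ((4 * D + 5) * (i * (C₄ / (m : ℝ) ^ 4)))) := by
  classical
  have hm0 : (0 : ℝ) < m := by exact_mod_cast hm
  have e1 : ∑ M ∈ (blk (k - 2 * D) (4 * D + 4)).filter (fun M => M ∈ B), 1 / (M : ℝ) *
        ∑ s ∈ typ i D, 3 ^ s * Pc s i s (sg d * M) * g (Real.logb 2 M + i - th * s - z) =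
      ∑ s ∈ typ i D, ∑ M ∈ (blk (k - 2 * D) (4 * D + 4)).filter (fun M => M ∈ B),
        1 / (M : ℝ) * (3 ^ s * Pc s i s (sg d * M) * g (Real.logb 2 M + i - th * s - z)) := by
    simp_rw [Finset.mul_sum]
    rw [Finset.sum_comm]
  rw [e1, ← Finset.sum_sub_distrib]
  have h1 : ∀ s ∈ typ i D,
      |∑ M ∈ (blk (k - 2 * D) (4 * D + 4)).filter (fun M => M ∈ B),
          1 / (M : ℝ) * (3 ^ s * Pc s i s (sg d * M) * g (Real.logb 2 M + i - th * s - z)) -
        ∑ M ∈ (blk (k - 2 * D) (4 * D + 4)).filter (fun M => M ∈ B),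
          1 / (M : ℝ) * (3 ^ m * Pc m i s (sg d * M) * g (Real.logb 2 M + i - th * s - z))| ≤
      2 * ((4 * D + 5) * (i * (C₄ / (m : ℝ) ^ 4))) := by
    intro s hst
    obtain ⟨hms, h3s⟩ := hs s hst
    have hsi : s ≤ i := (mem_typ hst).1
    have hnn : ∀ M : ℕ, 0 ≤ 1 / (M : ℝ) *
        |3 ^ s * Pc s i s (sg d * M) - 3 ^ m * Pc m i s (sg d * M)| := by
      intro M
      positivity
    have hmx := hmix d m i s (k - 2 * D) (4 * D + 4) hms h3s
    have hj : ∑ n ∈ Ioc m s, Josc n (i + 1) ≤ i * (C₄ / (m : ℝ) ^ 4) := by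
      refine (Finset.sum_le_card_nsmul _ _ (C₄ / (m : ℝ) ^ 4) ?_).trans ?_
      · intro n hn
        obtain ⟨h1, h2⟩ := Finset.mem_Ioc.1 hn
        refine (hjosc n (i + 1) (by omega)).trans ?_
        apply div_le_div_of_nonneg_left hC.le (by positivity)
        apply pow_le_pow_left₀ hm0.le
        exact_mod_cast h1.le
      · rw [nsmul_eq_mul, Nat.card_Ioc]
        apply mul_le_mul_of_nonneg_right _ (by positivity)
        exact_mod_cast (by omega : s - m ≤ i)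
    rw [← Finset.sum_sub_distrib]
    calc |∑ M ∈ (blk (k - 2 * D) (4 * D + 4)).filter (fun M => M ∈ B),
          (1 / (M : ℝ) * (3 ^ s * Pc s i s (sg d * M) * g (Real.logb 2 M + i - th * s - z)) -
          1 / (M : ℝ) * (3 ^ m * Pc m i s (sg d * M) * g (Real.logb 2 M + i - th * s - z)))|
        ≤ ∑ M ∈ (blk (k - 2 * D) (4 * D + 4)).filter (fun M => M ∈ B),
          |1 / (M : ℝ) * (3 ^ s * Pc s i s (sg d * M) * g (Real.logb 2 M + i - th * s - z)) -
          1 / (M : ℝ) * (3 ^ m * Pc m i s (sg d * M) * g (Real.logb 2 M + i - th * s - z))| :=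
          Finset.abs_sum_le_sum_abs _ _
      _ ≤ ∑ M ∈ (blk (k - 2 * D) (4 * D + 4)).filter (fun M => M ∈ B),
          2 * (1 / (M : ℝ) * |3 ^ s * Pc s i s (sg d * M) - 3 ^ m * Pc m i s (sg d * M)|) := by
          refine Finset.sum_le_sum fun M _ => ?_
          have e2 : 1 / (M : ℝ) * (3 ^ s * Pc s i s (sg d * M) *
              g (Real.logb 2 M + i - th * s - z)) -
              1 / (M : ℝ) * (3 ^ m * Pc m i s (sg d * M) *
                g (Real.logb 2 M + i - th * s - z)) =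
              g (Real.logb 2 M + i - th * s - z) * (1 / (M : ℝ) *
                (3 ^ s * Pc s i s (sg d * M) - 3 ^ m * Pc m i s (sg d * M))) := by ring
          rw [e2, abs_mul, abs_mul (1 / (M : ℝ)), abs_of_nonneg (show 0 ≤ 1 / (M : ℝ) by positivity)]
          exact mul_le_mul_of_nonneg_right (hg.bd _) (hnn M)
      _ ≤ ∑ M ∈ blk (k - 2 * D) (4 * D + 4),
          2 * (1 / (M : ℝ) * |3 ^ s * Pc s i s (sg d * M) - 3 ^ m * Pc m i s (sg d * M)|) := by
          refine Finset.sum_le_sum_of_subset_of_nonneg (Finset.filter_subset _ _)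
            fun M _ _ => by
              have := hnn M
              linarith
      _ = 2 * ∑ M ∈ blk (k - 2 * D) (4 * D + 4),
          1 / (M : ℝ) * |3 ^ s * Pc s i s (sg d * M) - 3 ^ m * Pc m i s (sg d * M)| := by
          rw [Finset.mul_sum]
      _ ≤ 2 * ((((4 * D + 4 : ℕ) : ℝ) + 1) * ∑ n ∈ Ioc m s, Josc n (i + 1)) := by
          linarith
      _ ≤ 2 * ((4 * D + 5) * (i * (C₄ / (m : ℝ) ^ 4))) := by
          have e3 : (((4 * D + 4 : ℕ) : ℝ) + 1) = 4 * D + 5 := by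
            push_cast
            ring
          rw [e3]
          have : (0 : ℝ) ≤ 4 * D + 5 := by positivity
          have := mul_le_mul_of_nonneg_left hj this
          linarith
  refine (Finset.abs_sum_le_sum_abs _ _).trans ((Finset.sum_le_card_nsmul _ _ _ h1).trans ?_)
  rw [nsmul_eq_mul]
  have h2 : ((typ i D).card : ℝ) ≤ (i : ℝ) + 1 := by
    have : (typ i D).card ≤ (range (i + 1)).card := Finset.card_le_card (Finset.filter_subset _ _)
    rw [Finset.card_range] at this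
    exact_mod_cast this
  have h3 : 0 ≤ 2 * ((4 * (D : ℝ) + 5) * (i * (C₄ / (m : ℝ) ^ 4))) := by positivity
  calc ((typ i D).card : ℝ) * (2 * ((4 * D + 5) * (i * (C₄ / (m : ℝ) ^ 4)))) ≤
      ((i : ℝ) + 1) * (2 * ((4 * D + 5) * (i * (C₄ / (m : ℝ) ^ 4)))) :=
        mul_le_mul_of_nonneg_right h2 h3
    _ = _ := by ring

/-! ### The parameters -/

theorem three_pow_le {s a : ℕ} (h : 8 / 5 * (s : ℝ) ≤ a) : 3 ^ s ≤ 2 ^ a := by
  have h1 : (3 : ℝ) ^ s ≤ 2 ^ a := by
    rw [three_pow, ← Real.rpow_natCast 2 a]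
    refine Real.rpow_le_rpow_of_exponent_le (by norm_num) ?_
    have := mul_le_mul_of_nonneg_right th_lt.le (Nat.cast_nonneg (α := ℝ) s)
    linarith
  exact_mod_cast h1

open Classical in
/-- S1B. -/
theorem s1b (hmix : MixStatement) (hjosc : JoscStatement) (hps : PsplitStatement)
    (hphi : PhiStatement) (hh : HoeffStatement) : S1BStatement := by
  obtain ⟨C₄, hC, hj4⟩ := hjosc 4
  refine ⟨2 * C₄ * 300 ^ 4 + 48 * (Nat.factorial 10 * 4 ^ 10), 10 ^ 11, by positivity, ?_⟩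
  intro d B g L z i m D k hz hg hi h4m hzm hD hk
  -- the parameters
  set K : ℕ := ⌊z⌋₊ with hK
  have hz0 : 0 ≤ z := by linarith
  have hK1 : (K : ℝ) ≤ z := Nat.floor_le hz0
  have hK2 : z < K + 1 := Nat.lt_floor_add_one z
  have hK3 : 10 ^ 10 ≤ K := by
    rw [hK]
    refine Nat.le_floor ?_
    push_cast
    linarith
  obtain ⟨hD2, hD200⟩ := dev_small hK3
  rw [← hD] at hD2 hD200
  have hD200' : 200 * (D : ℝ) ≤ K := by exact_mod_cast hD200
  have hm300 : z / 300 ≤ m := by linarith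
  have hm0 : 0 < m := by
    have : (0 : ℝ) < m := lt_of_lt_of_le (by linarith) hm300
    exact_mod_cast this
  have h4m' : 4 * (m : ℝ) ≤ i := by exact_mod_cast h4m
  have hi0 : 0 < i := by omega
  have hth := th_lt
  have hth' := th_gt
  have hmu : mu = 1 - th / 2 := rfl
  have hi0' : (0 : ℝ) ≤ i := Nat.cast_nonneg i
  have hmui : mu * (i : ℝ) ≤ 1 / 4 * i := by
    refine mul_le_mul_of_nonneg_right ?_ hi0'
    rw [hmu]
    linarith
  have h0 : 0 ≤ z - mu * i := by linarith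
  have hk2 : z - mu * i < k + 1 := by
    rw [hk]
    exact Nat.lt_floor_add_one _
  have hkbig : 39 / 40 * z - 1 ≤ k := by linarith
  have hkD : 2 * D ≤ k := by
    have : 2 * (D : ℝ) ≤ k := by linarith
    exact_mod_cast this
  have hkD' : ((k - 2 * D : ℕ) : ℝ) = k - 2 * D := by
    rw [Nat.cast_sub hkD]
    push_cast
    ring
  have htyp : ∀ s ∈ typ i D, m ≤ s ∧ 3 ^ s ≤ 2 ^ (k - 2 * D) := by
    intro s hs
    obtain ⟨h1, h2, h3⟩ := mem_typ hs
    constructor
    · have : (m : ℝ) ≤ s := by linarith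
      exact_mod_cast this
    · refine three_pow_le ?_
      rw [hkD']
      linarith
  have hmi : m ≤ i := by omega
  -- the main chain
  have herr1 := mix_err hmix hC hj4 (d := d) (B := B) (z := z) (D := D) (k := k) hg hm0 htyp
  have e2 : ∑ s ∈ typ i D, ∑ M ∈ (blk (k - 2 * D) (4 * D + 4)).filter (fun M => M ∈ B),
        1 / (M : ℝ) * (3 ^ m * Pc m i s (sg d * M) * g (Real.logb 2 M + i - th * s - z)) =
      ∑ s ∈ typ i D, Es d B g m i s (z - i + th * s) :=
    Finset.sum_congr rfl fun s hs => Es_eq hg hs hk h0 hkD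
  rw [e2] at herr1
  have hsub : typ i D ⊆ Icc m i := by
    intro s hs
    exact Finset.mem_Icc.2 ⟨(htyp s hs).1, (mem_typ hs).1⟩
  have e3 : ∑ s ∈ Icc m i \ typ i D, Es d B g m i s (z - i + th * s) +
      ∑ s ∈ typ i D, Es d B g m i s (z - i + th * s) =
      ∑ s ∈ Icc m i, Es d B g m i s (z - i + th * s) := Finset.sum_sdiff hsub
  rw [sum_Es hps d B g hmi z] at e3
  have herr2 : |∑ s ∈ Icc m i \ typ i D, Es d B g m i s (z - i + th * s)| ≤
      12 * Real.exp (-((D : ℝ) ^ 2 / (2 * i))) := by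
    calc |∑ s ∈ Icc m i \ typ i D, Es d B g m i s (z - i + th * s)|
        ≤ ∑ s ∈ Icc m i \ typ i D, |Es d B g m i s (z - i + th * s)| :=
          Finset.abs_sum_le_sum_abs _ _
      _ ≤ ∑ s ∈ Icc m i \ typ i D, 6 * ((i.choose s : ℝ) / 2 ^ i) := by
          refine Finset.sum_le_sum fun s _ => ?_
          have hs0 : (0 : ℝ) ≤ th * s := mul_nonneg (by linarith) (Nat.cast_nonneg s)
          have ht0 : 0 ≤ z - i + th * s := by linarith
          refine Es_le hphi hg ht0 (three_pow_le ?_)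
          have := Nat.lt_floor_add_one (z - i + th * s)
          linarith
      _ = 6 * ∑ s ∈ Icc m i \ typ i D, (i.choose s : ℝ) / 2 ^ i := by rw [Finset.mul_sum]
      _ ≤ 12 * Real.exp (-((D : ℝ) ^ 2 / (2 * i))) := by
          have := nontyp hh m i D
          linarith
  -- numerical bounds
  have hzpos : 0 < z := by linarith
  have hb1 : 2 * (((i : ℝ) + 1) * ((4 * D + 5) * (i * (C₄ / (m : ℝ) ^ 4)))) ≤
      2 * C₄ * 300 ^ 4 / z := by
    have hi1 : (i : ℝ) + 1 ≤ z := by linarith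
    have hi2 : (i : ℝ) ≤ z := by linarith
    have hD5 : 4 * (D : ℝ) + 5 ≤ z := by linarith
    have hmz : C₄ / (m : ℝ) ^ 4 ≤ C₄ * 300 ^ 4 / z ^ 4 := by
      have h1 : (z / 300) ^ 4 ≤ (m : ℝ) ^ 4 := pow_le_pow_left₀ (by positivity) hm300 4
      have h2 : C₄ / (m : ℝ) ^ 4 ≤ C₄ / (z / 300) ^ 4 :=
        div_le_div_of_nonneg_left hC.le (by positivity) h1
      refine h2.trans (le_of_eq ?_)
      rw [div_pow]
      field_simp
    calc 2 * (((i : ℝ) + 1) * ((4 * D + 5) * (i * (C₄ / (m : ℝ) ^ 4)))) ≤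
        2 * (z * (z * (z * (C₄ * 300 ^ 4 / z ^ 4)))) := by gcongr
      _ = 2 * C₄ * 300 ^ 4 / z := by
        field_simp
  have hb2 : 12 * Real.exp (-((D : ℝ) ^ 2 / (2 * i))) ≤
      48 * (Nat.factorial 10 * 4 ^ 10) / z := by
    have hiK : i ≤ 2 * K := by
      have : (i : ℝ) ≤ 2 * K := by linarith
      exact_mod_cast this
    have h1 := exp_bound (K := K) (i := i) (by omega) hi0 hiK
    rw [← hD] at h1
    set E : ℝ := Real.exp (-((D : ℝ) ^ 2 / (2 * i))) with hE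
    have hE0 : 0 < E := Real.exp_pos _
    set F : ℝ := (Nat.factorial 10 * 4 ^ 10 : ℝ) with hF
    rw [le_div_iff₀ hzpos]
    have h2 : z ≤ 4 * (K : ℝ) ^ 2 := by
      have h3 : (1 : ℝ) ≤ K := by linarith
      nlinarith
    have h3 : E * z ≤ E * (4 * (K : ℝ) ^ 2) := mul_le_mul_of_nonneg_left h2 hE0.le
    linarith
  have h3 := abs_le.1 herr1
  have h4 := abs_le.1 herr2
  have h5 : (2 * C₄ * 300 ^ 4 + 48 * (Nat.factorial 10 * 4 ^ 10)) / z =
      2 * C₄ * 300 ^ 4 / z + 48 * (Nat.factorial 10 * 4 ^ 10) / z := add_div _ _ _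
  rw [h5, abs_le]
  constructor
  · linarith [h3.1, h4.2]
  · linarith [h3.2, h4.1]

end Pool.Agent.Lib.MP_edb5be_nt.ND.H82
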