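import Pool.Agent.Lib.MP_edb5be_nt.ND.Iface3
import Pool.Agent.Lib.MP_edb5be_nt.ND.H82.S1B

/-!
Module S1BP (project ND): the module S1B with an arbitrary power of `z` in the error.
(helper82)
-/

set_option autoImplicit false

namespace Pool.Agent.Lib.MP_edb5be_nt.ND.H82

open Finset Pool.Agent.Lib.MP_0a5adf_nt.TP Pool.Agent.Lib.MP_0a5adf_nt.TP.H60

theorem exp_bound_p (A : ℕ) {K i : ℕ} (hK : 1 ≤ K) (hi : 0 < i) (hiK : i ≤ 2 * K) :
    (K : ℝ) ^ A * Real.exp (-((dev K : ℝ) ^ 2 / (2 * i))) ≤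
      Nat.factorial (5 * A) * 4 ^ (5 * A) := by
  have h0 : (0 : ℝ) < K := by exact_mod_cast hK
  have hi0 : (0 : ℝ) < i := by exact_mod_cast hi
  have hiK' : (i : ℝ) ≤ 2 * K := by exact_mod_cast hiK
  set y : ℝ := (K : ℝ) ^ (1 / 5 : ℝ) / 4 with hy
  have hy0 : 0 < y := by positivity
  have h1 : y ≤ (dev K : ℝ) ^ 2 / (2 * i) := by
    rw [le_div_iff₀ (by positivity)]
    have h2 := dev_sq K
    have h3 : (0 : ℝ) ≤ (K : ℝ) ^ (1 / 5 : ℝ) := by positivity
    calc y * (2 * i) ≤ y * (2 * (2 * K)) := by gcongr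
      _ = (K : ℝ) * (K : ℝ) ^ (1 / 5 : ℝ) := by rw [hy]; ring
      _ ≤ _ := h2
  have h2 : Real.exp (-((dev K : ℝ) ^ 2 / (2 * i))) ≤ Real.exp (-y) :=
    Real.exp_le_exp.2 (by linarith)
  have h3 : y ^ (5 * A) / (Nat.factorial (5 * A) : ℝ) ≤ Real.exp y :=
    Real.pow_div_factorial_le_exp y hy0.le (5 * A)
  have h4 : y ^ (5 * A) = (K : ℝ) ^ A / 4 ^ (5 * A) := by
    rw [hy, div_pow]
    congr 1
    rw [pow_mul]
    congr 1
    rw [← Real.rpow_natCast, ← Real.rpow_mul h0.le]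
    norm_num
  rw [h4] at h3
  have hf : (0 : ℝ) < (Nat.factorial (5 * A) : ℝ) := by positivity
  have h5 : (K : ℝ) ^ A ≤ Real.exp y * (Nat.factorial (5 * A) * 4 ^ (5 * A)) := by
    rw [div_div, div_le_iff₀ (by positivity)] at h3
    linarith
  calc (K : ℝ) ^ A * Real.exp (-((dev K : ℝ) ^ 2 / (2 * i))) ≤ (K : ℝ) ^ A * Real.exp (-y) := by
        gcongr
    _ ≤ (Real.exp y * (Nat.factorial (5 * A) * 4 ^ (5 * A))) * Real.exp (-y) := by gcongr
    _ = (Nat.factorial (5 * A) * 4 ^ (5 * A)) * (Real.exp y * Real.exp (-y)) := by ring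
    _ = _ := by rw [← Real.exp_add]; simp

open Classical in
/-- The first error term. -/
theorem mix_err_p (hmix : MixStatement) {C₄ : ℝ} {E : ℕ} (hC : 0 < C₄)
    (hjosc : ∀ n c₁ : ℕ, 1 ≤ n → Josc n c₁ ≤ C₄ / (n : ℝ) ^ E) {d : Bool} {B : Set ℕ}
    {g : ℝ → ℝ} {L z : ℝ} (hg : Bump L g) {i m D k : ℕ} (hm : 1 ≤ m)
    (hs : ∀ s ∈ typ i D, m ≤ s ∧ 3 ^ s ≤ 2 ^ (k - 2 * D)) :
    |∑ M ∈ (blk (k - 2 * D) (4 * D + 4)).filter (fun M => M ∈ B), 1 / (M : ℝ) *
        ∑ s ∈ typ i D, 3 ^ s * Pc s i s (sg d * M) * g (Real.logb 2 M + i - th * s - z) -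
      ∑ s ∈ typ i D, ∑ M ∈ (blk (k - 2 * D) (4 * D + 4)).filter (fun M => M ∈ B),
        1 / (M : ℝ) * (3 ^ m * Pc m i s (sg d * M) * g (Real.logb 2 M + i - th * s - z))| ≤
      2 * (((i : ℝ) + 1) * ((4 * D + 5) * (i * (C₄ / (m : ℝ) ^ E)))) := by
  classical
  have hm0 : (0 : ℝ) < m := by exact_mod_cast hm
  have e1 : ∑ M ∈ (blk (k - 2 * D) (4 * D + 4)).filter (fun M => M ∈ B), 1 / (M : ℝ) *
        ∑ s ∈ typ i D, 3 ^ s * Pc s i s (sg d * M) * g (Real.logb 2 M + i - th * s - z) =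
      ∑ s ∈ typ i D, ∑ M ∈ (blk (k - 2 * D) (4 * D + 4)).filter (fun M => M ∈ B),
        1 / (M : ℝ) * (3 ^ s * Pc s i s (sg d * M) * g (Real.logb 2 M + i - th * s - z)) := by
    simp_rw [Finset.mul_sum]
    rw [Finset.sum_comm]
  rw [e1, ← Finset.sum_sub_distrib]
  have h1 : ∀ s ∈ typ i D,
      |∑ M ∈ (blk (k - 2 * D) (4 * D + 4)).filter (fun M => M ∈ B),
          1 / (M : ℝ) * (3 ^ s * Pc s i s (sg d * M) * g (Real.logb 2 M + i - th * s - z)) -
        ∑ M ∈ (blk (k - 2 * D) (4 * D + 4)).filter (fun M => M ∈ B),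
          1 / (M : ℝ) * (3 ^ m * Pc m i s (sg d * M) * g (Real.logb 2 M + i - th * s - z))| ≤
      2 * ((4 * D + 5) * (i * (C₄ / (m : ℝ) ^ E))) := by
    intro s hst
    obtain ⟨hms, h3s⟩ := hs s hst
    have hsi : s ≤ i := (mem_typ hst).1
    have hnn : ∀ M : ℕ, 0 ≤ 1 / (M : ℝ) *
        |3 ^ s * Pc s i s (sg d * M) - 3 ^ m * Pc m i s (sg d * M)| := by
      intro M
      positivity
    have hmx := hmix d m i s (k - 2 * D) (4 * D + 4) hms h3s
    have hj : ∑ n ∈ Ioc m s, Josc n (i + 1) ≤ i * (C₄ / (m : ℝ) ^ E) := by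
      refine (Finset.sum_le_card_nsmul _ _ (C₄ / (m : ℝ) ^ E) ?_).trans ?_
      · intro n hn
        obtain ⟨h1, h2⟩ := Finset.mem_Ioc.1 hn
        refine (hjosc n (i + 1) (by omega)).trans ?_
        apply div_le_div_of_nonneg_left hC.le (by positivity)
        apply pow_le_pow_left₀ hm0.le
        exact_mod_cast h1.le
      · rw [nsmul_eq_mul, Nat.card_Ioc]
        apply mul_le_mul_of_nonneg_right _ (by positivity)
        exact_mod_cast (by omega : s - m ≤ i)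
    rw [← Finset.sum_sub_distrib]
    calc |∑ M ∈ (blk (k - 2 * D) (4 * D + 4)).filter (fun M => M ∈ B),
          (1 / (M : ℝ) * (3 ^ s * Pc s i s (sg d * M) * g (Real.logb 2 M + i - th * s - z)) -
          1 / (M : ℝ) * (3 ^ m * Pc m i s (sg d * M) * g (Real.logb 2 M + i - th * s - z)))|
        ≤ ∑ M ∈ (blk (k - 2 * D) (4 * D + 4)).filter (fun M => M ∈ B),
          |1 / (M : ℝ) * (3 ^ s * Pc s i s (sg d * M) * g (Real.logb 2 M + i - th * s - z)) -
          1 / (M : ℝ) * (3 ^ m * Pc m i s (sg d * M) * g (Real.logb 2 M + i - th * s - z))| :=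
          Finset.abs_sum_le_sum_abs _ _
      _ ≤ ∑ M ∈ (blk (k - 2 * D) (4 * D + 4)).filter (fun M => M ∈ B),
          2 * (1 / (M : ℝ) * |3 ^ s * Pc s i s (sg d * M) - 3 ^ m * Pc m i s (sg d * M)|) := by
          refine Finset.sum_le_sum fun M _ => ?_
          have e2 : 1 / (M : ℝ) * (3 ^ s * Pc s i s (sg d * M) *
              g (Real.logb 2 M + i - th * s - z)) -
              1 / (M : ℝ) * (3 ^ m * Pc m i s (sg d * M) *
                g (Real.logb 2 M + i - th * s - z)) =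
              g (Real.logb 2 M + i - th * s - z) * (1 / (M : ℝ) *
                (3 ^ s * Pc s i s (sg d * M) - 3 ^ m * Pc m i s (sg d * M))) := by ring
          rw [e2, abs_mul, abs_mul (1 / (M : ℝ)), abs_of_nonneg (show 0 ≤ 1 / (M : ℝ) by positivity)]
          exact mul_le_mul_of_nonneg_right (hg.bd _) (hnn M)
      _ ≤ ∑ M ∈ blk (k - 2 * D) (4 * D + 4),
          2 * (1 / (M : ℝ) * |3 ^ s * Pc s i s (sg d * M) - 3 ^ m * Pc m i s (sg d * M)|) := by
          refine Finset.sum_le_sum_of_subset_of_nonneg (Finset.filter_subset _ _)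
            fun M _ _ => by
              have := hnn M
              linarith
      _ = 2 * ∑ M ∈ blk (k - 2 * D) (4 * D + 4),
          1 / (M : ℝ) * |3 ^ s * Pc s i s (sg d * M) - 3 ^ m * Pc m i s (sg d * M)| := by
          rw [Finset.mul_sum]
      _ ≤ 2 * ((((4 * D + 4 : ℕ) : ℝ) + 1) * ∑ n ∈ Ioc m s, Josc n (i + 1)) := by
          linarith
      _ ≤ 2 * ((4 * D + 5) * (i * (C₄ / (m : ℝ) ^ E))) := by
          have e3 : (((4 * D + 4 : ℕ) : ℝ) + 1) = 4 * D + 5 := by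
            push_cast
            ring
          rw [e3]
          have : (0 : ℝ) ≤ 4 * D + 5 := by positivity
          have := mul_le_mul_of_nonneg_left hj this
          linarith
  refine (Finset.abs_sum_le_sum_abs _ _).trans ((Finset.sum_le_card_nsmul _ _ _ h1).trans ?_)
  rw [nsmul_eq_mul]
  have h2 : ((typ i D).card : ℝ) ≤ (i : ℝ) + 1 := by
    have : (typ i D).card ≤ (range (i + 1)).card := Finset.card_le_card (Finset.filter_subset _ _)
    rw [Finset.card_range] at this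
    exact_mod_cast this
  have h3 : 0 ≤ 2 * ((4 * (D : ℝ) + 5) * (i * (C₄ / (m : ℝ) ^ E))) := by positivity
  calc ((typ i D).card : ℝ) * (2 * ((4 * D + 5) * (i * (C₄ / (m : ℝ) ^ E)))) ≤
      ((i : ℝ) + 1) * (2 * ((4 * D + 5) * (i * (C₄ / (m : ℝ) ^ E)))) :=
        mul_le_mul_of_nonneg_right h2 h3
    _ = _ := by ring

open Classical in
/-- S1BP. -/
theorem s1bp (hmix : MixStatement) (hjosc : JoscStatement) (hps : PsplitStatement)
    (hphi : PhiStatement) (hh : HoeffStatement) : S1BPStatement := by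
  intro A
  obtain ⟨C₄, hC, hj4⟩ := hjosc (A + 3)
  refine ⟨2 * C₄ * 300 ^ (A + 3) + 12 * (2 ^ A * (Nat.factorial (5 * A) * 4 ^ (5 * A))), 10 ^ 11, by positivity, ?_⟩
  intro d B g L z i m D k hz hg hi h4m hzm hD hk
  -- the parameters
  set K : ℕ := ⌊z⌋₊ with hK
  have hz0 : 0 ≤ z := by linarith
  have hK1 : (K : ℝ) ≤ z := Nat.floor_le hz0
  have hK2 : z < K + 1 := Nat.lt_floor_add_one z
  have hK3 : 10 ^ 10 ≤ K := by
    rw [hK]
    refine Nat.le_floor ?_
    push_cast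
    linarith
  obtain ⟨hD2, hD200⟩ := dev_small hK3
  rw [← hD] at hD2 hD200
  have hD200' : 200 * (D : ℝ) ≤ K := by exact_mod_cast hD200
  have hm300 : z / 300 ≤ m := by linarith
  have hm0 : 0 < m := by
    have : (0 : ℝ) < m := lt_of_lt_of_le (by linarith) hm300
    exact_mod_cast this
  have h4m' : 4 * (m : ℝ) ≤ i := by exact_mod_cast h4m
  have hi0 : 0 < i := by omega
  have hth := th_lt
  have hth' := th_gt
  have hmu : mu = 1 - th / 2 := rfl
  have hi0' : (0 : ℝ) ≤ i := Nat.cast_nonneg i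
  have hmui : mu * (i : ℝ) ≤ 1 / 4 * i := by
    refine mul_le_mul_of_nonneg_right ?_ hi0'
    rw [hmu]
    linarith
  have h0 : 0 ≤ z - mu * i := by linarith
  have hk2 : z - mu * i < k + 1 := by
    rw [hk]
    exact Nat.lt_floor_add_one _
  have hkbig : 39 / 40 * z - 1 ≤ k := by linarith
  have hkD : 2 * D ≤ k := by
    have : 2 * (D : ℝ) ≤ k := by linarith
    exact_mod_cast this
  have hkD' : ((k - 2 * D : ℕ) : ℝ) = k - 2 * D := by
    rw [Nat.cast_sub hkD]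
    push_cast
    ring
  have htyp : ∀ s ∈ typ i D, m ≤ s ∧ 3 ^ s ≤ 2 ^ (k - 2 * D) := by
    intro s hs
    obtain ⟨h1, h2, h3⟩ := mem_typ hs
    constructor
    · have : (m : ℝ) ≤ s := by linarith
      exact_mod_cast this
    · refine three_pow_le ?_
      rw [hkD']
      linarith
  have hmi : m ≤ i := by omega
  -- the main chain
  have herr1 := mix_err_p hmix hC hj4 (d := d) (B := B) (z := z) (D := D) (k := k) hg hm0 htyp
  have e2 : ∑ s ∈ typ i D, ∑ M ∈ (blk (k - 2 * D) (4 * D + 4)).filter (fun M => M ∈ B),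
        1 / (M : ℝ) * (3 ^ m * Pc m i s (sg d * M) * g (Real.logb 2 M + i - th * s - z)) =
      ∑ s ∈ typ i D, Es d B g m i s (z - i + th * s) :=
    Finset.sum_congr rfl fun s hs => Es_eq hg hs hk h0 hkD
  rw [e2] at herr1
  have hsub : typ i D ⊆ Icc m i := by
    intro s hs
    exact Finset.mem_Icc.2 ⟨(htyp s hs).1, (mem_typ hs).1⟩
  have e3 : ∑ s ∈ Icc m i \ typ i D, Es d B g m i s (z - i + th * s) +
      ∑ s ∈ typ i D, Es d B g m i s (z - i + th * s) =
      ∑ s ∈ Icc m i, Es d B g m i s (z - i + th * s) := Finset.sum_sdiff hsub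
  rw [sum_Es hps d B g hmi z] at e3
  have herr2 : |∑ s ∈ Icc m i \ typ i D, Es d B g m i s (z - i + th * s)| ≤
      12 * Real.exp (-((D : ℝ) ^ 2 / (2 * i))) := by
    calc |∑ s ∈ Icc m i \ typ i D, Es d B g m i s (z - i + th * s)|
        ≤ ∑ s ∈ Icc m i \ typ i D, |Es d B g m i s (z - i + th * s)| :=
          Finset.abs_sum_le_sum_abs _ _
      _ ≤ ∑ s ∈ Icc m i \ typ i D, 6 * ((i.choose s : ℝ) / 2 ^ i) := by
          refine Finset.sum_le_sum fun s _ => ?_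
          have hs0 : (0 : ℝ) ≤ th * s := mul_nonneg (by linarith) (Nat.cast_nonneg s)
          have ht0 : 0 ≤ z - i + th * s := by linarith
          refine Es_le hphi hg ht0 (three_pow_le ?_)
          have := Nat.lt_floor_add_one (z - i + th * s)
          linarith
      _ = 6 * ∑ s ∈ Icc m i \ typ i D, (i.choose s : ℝ) / 2 ^ i := by rw [Finset.mul_sum]
      _ ≤ 12 * Real.exp (-((D : ℝ) ^ 2 / (2 * i))) := by
          have := nontyp hh m i D
          linarith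
  -- numerical bounds
  have hzpos : 0 < z := by linarith
  have hb1 : 2 * (((i : ℝ) + 1) * ((4 * D + 5) * (i * (C₄ / (m : ℝ) ^ (A + 3))))) ≤
      2 * C₄ * 300 ^ (A + 3) / z ^ A := by
    have hi1 : (i : ℝ) + 1 ≤ z := by linarith
    have hi2 : (i : ℝ) ≤ z := by linarith
    have hD5 : 4 * (D : ℝ) + 5 ≤ z := by linarith
    have hmz : C₄ / (m : ℝ) ^ (A + 3) ≤ C₄ * 300 ^ (A + 3) / z ^ (A + 3) := by
      have h1 : (z / 300) ^ (A + 3) ≤ (m : ℝ) ^ (A + 3) :=
        pow_le_pow_left₀ (by positivity) hm300 (A + 3)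
      have h2 : C₄ / (m : ℝ) ^ (A + 3) ≤ C₄ / (z / 300) ^ (A + 3) :=
        div_le_div_of_nonneg_left hC.le (by positivity) h1
      refine h2.trans (le_of_eq ?_)
      rw [div_pow]
      field_simp
    calc 2 * (((i : ℝ) + 1) * ((4 * D + 5) * (i * (C₄ / (m : ℝ) ^ (A + 3))))) ≤
        2 * (z * (z * (z * (C₄ * 300 ^ (A + 3) / z ^ (A + 3))))) := by gcongr
      _ = 2 * C₄ * 300 ^ (A + 3) / z ^ A := by
        rw [show z ^ (A + 3) = z ^ A * (z * z * z) by ring]
        field_simp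
  have hb2 : 12 * Real.exp (-((D : ℝ) ^ 2 / (2 * i))) ≤
      12 * (2 ^ A * (Nat.factorial (5 * A) * 4 ^ (5 * A))) / z ^ A := by
    have hiK : i ≤ 2 * K := by
      have : (i : ℝ) ≤ 2 * K := by linarith
      exact_mod_cast this
    have h1 := exp_bound_p A (K := K) (i := i) (by omega) hi0 hiK
    rw [← hD] at h1
    set E : ℝ := Real.exp (-((D : ℝ) ^ 2 / (2 * i))) with hE
    have hE0 : 0 < E := Real.exp_pos _
    rw [le_div_iff₀ (by positivity)]
    have h2 : z ^ A ≤ 2 ^ A * (K : ℝ) ^ A := by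
      rw [← mul_pow]
      exact pow_le_pow_left₀ hz0 (by linarith) A
    have h3 : E * z ^ A ≤ E * (2 ^ A * (K : ℝ) ^ A) := mul_le_mul_of_nonneg_left h2 hE0.le
    have h4 : (2 : ℝ) ^ A * ((K : ℝ) ^ A * E) ≤
        2 ^ A * (Nat.factorial (5 * A) * 4 ^ (5 * A)) :=
      mul_le_mul_of_nonneg_left h1 (by positivity)
    linarith
  have h3 := abs_le.1 herr1
  have h4 := abs_le.1 herr2
  have h5 : (2 * C₄ * 300 ^ (A + 3) + 12 * (2 ^ A * (Nat.factorial (5 * A) * 4 ^ (5 * A)))) /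
      z ^ A = 2 * C₄ * 300 ^ (A + 3) / z ^ A +
        12 * (2 ^ A * (Nat.factorial (5 * A) * 4 ^ (5 * A))) / z ^ A := add_div _ _ _
  rw [h5, abs_le]
  constructor
  · linarith [h3.1, h4.2]
  · linarith [h3.2, h4.1]

end Pool.Agent.Lib.MP_edb5be_nt.ND.H82
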