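import Pool.Agent.Lib.MP_edb5be_nt.ND.Defs
import Pool.Agent.Lib.MP_edb5be_nt.ND.H50.Bin
import Pool.Agent.Lib.MP_edb5be_nt.ND.H63.Semi
import Pool.Agent.Lib.MP_0a5adf_nt.H15.Hoeff

set_option autoImplicit false

/-!
Many steps of the walk: if `G (j + J) = PJ J (G j)` up to `ε` for `J ≤ J₀` above the level `w`, then
`G (j + K) x = PJ K (G j) x` up to `(K / J₀ + 1) * (ε + tail)` as long as `w + y ≤ x - mu * K`.
-/

namespace Pool.Agent.Lib.MP_edb5be_nt.ND.H82

open Finset Pool.Agent.Lib.MP_0a5adf_nt.TP Pool.Agent.Lib.MP_edb5be_nt.ND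

open Classical in
/-- probability to be below `w` after `n` steps from `x` -/
noncomputable def tl (n : ℕ) (x w : ℝ) : ℝ :=
  ∑ v ∈ (range (n + 1)).filter (fun v : ℕ => x - n + th * v < w), bw n v

theorem bw_nn (J v : ℕ) : 0 ≤ bw J v := by
  unfold bw
  positivity

theorem tl_nonneg (n : ℕ) (x w : ℝ) : 0 ≤ tl n x w :=
  Finset.sum_nonneg fun v _ => bw_nn n v

theorem tl_zero {x w : ℝ} (h : w ≤ x) : tl 0 x w = 0 := by
  unfold tl
  apply Finset.sum_eq_zero
  intro v hv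
  rw [Finset.mem_filter, Finset.mem_range] at hv
  have hv0 : v = 0 := by omega
  rw [hv0] at hv
  exfalso
  have := hv.2
  simp at this
  linarith

theorem mu_pos : 0 < mu := by
  unfold mu
  have h : th < 2 := by
    unfold th
    rw [Real.logb_lt_iff_lt_rpow (by norm_num) (by norm_num)]
    norm_num
  linarith

theorem thp : 0 < th := Real.logb_pos (by norm_num) (by norm_num)

/-- Hoeffding bound of `tl` -/
theorem tl_le {n : ℕ} {x w y : ℝ} (hn : 0 < n) (hy : 0 ≤ y) (h : w + y ≤ x - mu * n) :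
    tl n x w ≤ 2 * Real.exp (-(2 * (y / th) ^ 2 / n)) := by
  classical
  have hth := thp
  have h1 := Pool.Agent.Lib.MP_0a5adf_nt.TP.H15.hoeff n (y / th) (by positivity)
  have hsub : (range (n + 1)).filter (fun v : ℕ => x - n + th * v < w) ⊆
      (range (n + 1)).filter (fun k : ℕ => y / th ≤ |(k : ℝ) - n / 2|) := by
    intro v hv
    rw [Finset.mem_filter] at hv ⊢
    refine ⟨hv.1, ?_⟩
    have h2 := hv.2
    have h3 : th * ((v : ℝ) - n / 2) ≤ -y := by
      unfold mu at h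
      nlinarith
    have h4 : y / th ≤ -((v : ℝ) - n / 2) := by
      rw [div_le_iff₀ hth]
      nlinarith
    exact h4.trans (neg_le_abs _)
  have h5 : tl n x w ≤ ∑ v ∈ (range (n + 1)).filter (fun k : ℕ => y / th ≤ |(k : ℝ) - n / 2|),
      bw n v := by
    unfold tl
    exact Finset.sum_le_sum_of_subset_of_nonneg hsub fun v _ _ => bw_nn n v
  refine h5.trans ?_
  have h6 : ∑ v ∈ (range (n + 1)).filter (fun k : ℕ => y / th ≤ |(k : ℝ) - n / 2|), bw n v =
      (∑ k ∈ (range (n + 1)).filter (fun k : ℕ => y / th ≤ |(k : ℝ) - n / 2|),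
        (n.choose k : ℝ)) / 2 ^ n := by
    unfold bw
    rw [Finset.sum_div]
  rw [h6, div_le_iff₀ (by positivity)]
  linarith

theorem PJ_bound {n : ℕ} {f : ℝ → ℝ} {x b : ℝ} (hf : ∀ y, |f y| ≤ b) : |PJ n f x| ≤ b := by
  unfold PJ
  calc |∑ v ∈ range (n + 1), bw n v * f (x - n + th * v)|
      ≤ ∑ v ∈ range (n + 1), |bw n v * f (x - n + th * v)| := Finset.abs_sum_le_sum_abs _ _
    _ ≤ ∑ v ∈ range (n + 1), bw n v * b := by
        apply Finset.sum_le_sum
        intro v _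
        rw [abs_mul, abs_of_nonneg (bw_nn n v)]
        exact mul_le_mul_of_nonneg_left (hf _) (bw_nn n v)
    _ = b := by
        rw [← Finset.sum_mul, H50.sum_bw, one_mul]

/-- the difference of two averages, the functions being close above `w` -/
theorem PJ_sub {n : ℕ} {f g : ℝ → ℝ} {x w ε b : ℝ} (hε : 0 ≤ ε)
    (h : ∀ y, w ≤ y → |f y - g y| ≤ ε) (h' : ∀ y, |f y - g y| ≤ b) :
    |PJ n f x - PJ n g x| ≤ ε + b * tl n x w := by
  classical
  have h1 : PJ n f x - PJ n g x =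
      ∑ v ∈ range (n + 1), bw n v * (f (x - n + th * v) - g (x - n + th * v)) := by
    unfold PJ
    rw [← Finset.sum_sub_distrib]
    apply Finset.sum_congr rfl
    intro v _
    ring
  rw [h1]
  calc |∑ v ∈ range (n + 1), bw n v * (f (x - n + th * v) - g (x - n + th * v))|
      ≤ ∑ v ∈ range (n + 1), |bw n v * (f (x - n + th * v) - g (x - n + th * v))| :=
        Finset.abs_sum_le_sum_abs _ _
    _ ≤ ∑ v ∈ range (n + 1), (bw n v * ε +
          if x - n + th * v < w then b * bw n v else 0) := by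
        apply Finset.sum_le_sum
        intro v _
        rw [abs_mul, abs_of_nonneg (bw_nn n v)]
        split_ifs with h2
        · have h3 := mul_le_mul_of_nonneg_left (h' (x - n + th * v)) (bw_nn n v)
          have h4 := mul_nonneg (bw_nn n v) hε
          linarith
        · have h3 := mul_le_mul_of_nonneg_left (h (x - n + th * v) (not_lt.1 h2)) (bw_nn n v)
          linarith
    _ = ε + b * tl n x w := by
        rw [Finset.sum_add_distrib, ← Finset.sum_mul, H50.sum_bw, one_mul, ← Finset.sum_filter,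
          ← Finset.mul_sum]
        rfl

/-- many steps -/
theorem kstep₀ {G : ℕ → ℝ → ℝ} {w ε : ℝ} {J₀ : ℕ} (hb : ∀ j x, |G j x| ≤ 2) (hε : 0 ≤ ε)
    (h : ∀ (j J : ℕ) (x : ℝ), w ≤ x → J ≤ J₀ → |G (j + J) x - PJ J (G j) x| ≤ ε) (q : ℕ) :
    ∀ (j : ℕ) (x : ℝ), w ≤ x →
      |G (j + q * J₀) x - PJ (q * J₀) (G j) x| ≤ q * ε + 4 * ∑ i ∈ range q, tl (i * J₀) x w := by
  induction q with
  | zero =>
    intro j x _
    have h1 : PJ (0 * J₀) (G j) x = G j x := by
      unfold PJ bw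
      simp
    rw [h1]
    simp
  | succ q ih =>
    intro j x hx
    have h1 := ih (j + J₀) x hx
    have h2 : PJ (q * J₀) (PJ J₀ (G j)) x = PJ ((q + 1) * J₀) (G j) x := by
      rw [H63.semi]
      congr 1
      ring
    have h3 : |PJ (q * J₀) (G (j + J₀)) x - PJ (q * J₀) (PJ J₀ (G j)) x| ≤
        ε + 4 * tl (q * J₀) x w := by
      apply PJ_sub hε
      · intro y hy
        exact h j J₀ y hy le_rfl
      · intro y
        calc |G (j + J₀) y - PJ J₀ (G j) y| ≤ |G (j + J₀) y| + |PJ J₀ (G j) y| := abs_sub _ _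
          _ ≤ 2 + 2 := add_le_add (hb _ _) (PJ_bound (hb j))
          _ = 4 := by norm_num
    have h4 : j + (q + 1) * J₀ = j + J₀ + q * J₀ := by ring
    rw [h4, ← h2, Finset.sum_range_succ]
    have h5 := abs_sub_le (G (j + J₀ + q * J₀) x) (PJ (q * J₀) (G (j + J₀)) x)
      (PJ (q * J₀) (PJ J₀ (G j)) x)
    push_cast
    linarith

theorem kstep₁ {G : ℕ → ℝ → ℝ} {w ε : ℝ} {J₀ : ℕ} (hb : ∀ j x, |G j x| ≤ 2) (hε : 0 ≤ ε)
    (h : ∀ (j J : ℕ) (x : ℝ), w ≤ x → J ≤ J₀ → |G (j + J) x - PJ J (G j) x| ≤ ε) (q r : ℕ)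
    (hr : r ≤ J₀) (j : ℕ) (x : ℝ) (hx : w ≤ x) :
    |G (j + (q * J₀ + r)) x - PJ (q * J₀ + r) (G j) x| ≤
      (q + 1) * ε + 4 * ∑ i ∈ range (q + 1), tl (i * J₀) x w := by
  have h1 := kstep₀ hb hε h q (j + r) x hx
  have h2 : PJ (q * J₀) (PJ r (G j)) x = PJ (q * J₀ + r) (G j) x := H63.semi _ _ _ _
  have h3 : |PJ (q * J₀) (G (j + r)) x - PJ (q * J₀) (PJ r (G j)) x| ≤
      ε + 4 * tl (q * J₀) x w := by
    apply PJ_sub hε
    · intro y hy
      exact h j r y hy hr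
    · intro y
      calc |G (j + r) y - PJ r (G j) y| ≤ |G (j + r) y| + |PJ r (G j) y| := abs_sub _ _
        _ ≤ 2 + 2 := add_le_add (hb _ _) (PJ_bound (hb j))
        _ = 4 := by norm_num
  have h4 : j + (q * J₀ + r) = j + r + q * J₀ := by ring
  rw [h4, ← h2, Finset.sum_range_succ]
  have h5 := abs_sub_le (G (j + r + q * J₀) x) (PJ (q * J₀) (G (j + r)) x)
    (PJ (q * J₀) (PJ r (G j)) x)
  linarith

/-- KSTEP: `K` steps from `x`, as long as the mean position stays above `w + y` -/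
theorem kstep {G : ℕ → ℝ → ℝ} {w ε y : ℝ} {J₀ K : ℕ} (hb : ∀ j x, |G j x| ≤ 2) (hε : 0 ≤ ε)
    (hJ : 0 < J₀) (hy : 0 ≤ y)
    (h : ∀ (j J : ℕ) (x : ℝ), w ≤ x → J ≤ J₀ → |G (j + J) x - PJ J (G j) x| ≤ ε)
    (j : ℕ) (x : ℝ) (hx : w + y ≤ x - mu * K) :
    |G (j + K) x - PJ K (G j) x| ≤
      ((K : ℝ) / J₀ + 1) * (ε + 8 * Real.exp (-(2 * (y / th) ^ 2 / K))) := by
  have hmu := mu_pos
  have hwx : w ≤ x := by
    have : 0 ≤ mu * K := by positivity
    linarith
  obtain ⟨q, hq⟩ : ∃ q, q = K / J₀ := ⟨_, rfl⟩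
  obtain ⟨r, hr⟩ : ∃ r, r = K % J₀ := ⟨_, rfl⟩
  have hK : K = q * J₀ + r := by
    rw [hq, hr, mul_comm]
    exact (Nat.div_add_mod K J₀).symm
  have hrJ : r ≤ J₀ := by
    rw [hr]
    exact (Nat.mod_lt _ hJ).le
  have h1 := kstep₁ hb hε h q r hrJ j x hwx
  rw [← hK] at h1
  refine h1.trans ?_
  have hJR : (0 : ℝ) < J₀ := by exact_mod_cast hJ
  have hqR : (q : ℝ) ≤ K / J₀ := by
    rw [le_div_iff₀ hJR]
    have : q * J₀ ≤ K := by omega
    exact_mod_cast this
  have h2 : ∀ i ∈ range (q + 1), tl (i * J₀) x w ≤ 2 * Real.exp (-(2 * (y / th) ^ 2 / K)) := by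
    intro i hi
    rw [Finset.mem_range] at hi
    rcases Nat.eq_zero_or_pos (i * J₀) with h0 | h0
    · rw [h0, tl_zero hwx]
      positivity
    · have h3 : i * J₀ ≤ K := by
        have : i * J₀ ≤ q * J₀ := Nat.mul_le_mul_right _ (by omega)
        omega
      have h3R : ((i * J₀ : ℕ) : ℝ) ≤ K := by exact_mod_cast h3
      have h0R : (0 : ℝ) < ((i * J₀ : ℕ) : ℝ) := by exact_mod_cast h0
      have h4 : w + y ≤ x - mu * ((i * J₀ : ℕ) : ℝ) := by
        have := mul_le_mul_of_nonneg_left h3R hmu.le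
        linarith
      refine (tl_le h0 hy h4).trans ?_
      apply mul_le_mul_of_nonneg_left _ (by norm_num)
      apply Real.exp_le_exp.2
      apply neg_le_neg
      apply div_le_div_of_nonneg_left (by positivity) h0R h3R
  have h5 : ∑ i ∈ range (q + 1), tl (i * J₀) x w ≤
      (q + 1) * (2 * Real.exp (-(2 * (y / th) ^ 2 / K))) := by
    refine (Finset.sum_le_sum h2).trans ?_
    rw [Finset.sum_const, Finset.card_range, nsmul_eq_mul]
    push_cast
    exact le_rfl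
  have h6 : 0 ≤ ε + 8 * Real.exp (-(2 * (y / th) ^ 2 / K)) := by positivity
  calc (q + 1) * ε + 4 * ∑ i ∈ range (q + 1), tl (i * J₀) x w
      ≤ (q + 1) * ε + 4 * ((q + 1) * (2 * Real.exp (-(2 * (y / th) ^ 2 / K)))) := by linarith
    _ = (q + 1) * (ε + 8 * Real.exp (-(2 * (y / th) ^ 2 / K))) := by ring
    _ ≤ ((K : ℝ) / J₀ + 1) * (ε + 8 * Real.exp (-(2 * (y / th) ^ 2 / K))) :=
        mul_le_mul_of_nonneg_right (by linarith) h6

end Pool.Agent.Lib.MP_edb5be_nt.ND.H82
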