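import Mathlib
import Pool.Agent.Lib.MP_edb5be_nt.ND.Defs

set_option autoImplicit false

/-! De Moivre's theorem for the fair binomial law. -/

namespace Pool.Agent.Lib.MP_edb5be_nt.ND.H82

open MeasureTheory ProbabilityTheory Filter Finset
open scoped Topology

theorem bwt_nonneg (j v : ℕ) : 0 ≤ bw j v := by
  unfold bw
  positivity

theorem sum_bwt (j : ℕ) : ∑ v ∈ range (j + 1), bw j v = 1 := by
  unfold bw
  rw [← Finset.sum_div]
  have h := Nat.sum_range_choose j
  have h2 : (∑ v ∈ range (j + 1), (j.choose v : ℝ)) = 2 ^ j := by exact_mod_cast h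
  rw [h2]
  field_simp

/-- law of `(2 v - J) / √J`, `v` binomial -/
noncomputable def lawB (J : ℕ) : Measure ℝ :=
  ∑ v ∈ range (J + 1), ENNReal.ofReal (bw J v) • Measure.dirac ((2 * (v : ℝ) - J) / √J)

theorem lawB_apply (J : ℕ) {s : Set ℝ} (hs : MeasurableSet s) [DecidablePred (· ∈ s)] :
    lawB J s = ENNReal.ofReal (∑ v ∈ (range (J + 1)).filter
      (fun v : ℕ => (2 * (v : ℝ) - J) / √J ∈ s), bw J v) := by
  unfold lawB
  rw [Measure.finsetSum_apply, ENNReal.ofReal_sum_of_nonneg (fun v _ => bwt_nonneg J v),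
    Finset.sum_filter]
  apply Finset.sum_congr rfl
  intro v _
  rw [Measure.smul_apply, Measure.dirac_apply' _ hs, smul_eq_mul]
  by_cases h : (2 * (v : ℝ) - J) / √J ∈ s
  · rw [if_pos h, Set.indicator_of_mem h]
    simp
  · rw [if_neg h, Set.indicator_of_notMem h]
    simp

instance (J : ℕ) : IsProbabilityMeasure (lawB J) := by
  classical
  constructor
  rw [lawB_apply J MeasurableSet.univ]
  simp only [Set.mem_univ, Finset.filter_true]
  rw [sum_bwt]
  simp

/-- fair sign -/
noncomputable def sgnM : Measure ℝ :=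
  ENNReal.ofReal (1 / 2) • Measure.dirac (1 : ℝ) + ENNReal.ofReal (1 / 2) • Measure.dirac (-1 : ℝ)

instance : IsProbabilityMeasure sgnM := by
  constructor
  unfold sgnM
  simp only [Measure.coe_add, Measure.coe_smul, Pi.add_apply, Pi.smul_apply, measure_univ,
    smul_eq_mul, mul_one]
  rw [← ENNReal.ofReal_add (by norm_num) (by norm_num)]
  norm_num

theorem integral_sgnM {E : Type*} [NormedAddCommGroup E] [NormedSpace ℝ E] [CompleteSpace E]
    (f : ℝ → E) : ∫ x, f x ∂sgnM = (1 / 2 : ℝ) • f 1 + (1 / 2 : ℝ) • f (-1) := by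
  unfold sgnM
  rw [integral_add_measure, integral_smul_measure, integral_smul_measure, integral_dirac,
    integral_dirac, ENNReal.toReal_ofReal (by norm_num)]
  · exact (integrable_dirac (by simp)).smul_measure ENNReal.ofReal_ne_top
  · exact (integrable_dirac (by simp)).smul_measure ENNReal.ofReal_ne_top

theorem charFun_sgnM (t : ℝ) : charFun sgnM t =
    (Complex.exp (t * Complex.I) + Complex.exp (-(t * Complex.I))) / 2 := by
  rw [charFun_apply_real, integral_sgnM]
  simp only [Complex.ofReal_one, mul_one, Complex.ofReal_neg, mul_neg, neg_mul, Complex.real_smul]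
  push_cast
  ring

theorem charFun_lawB (J : ℕ) (t : ℝ) : charFun (lawB J) t = (charFun sgnM ((√J)⁻¹ * t)) ^ J := by
  rw [charFun_sgnM, charFun_apply_real]
  unfold lawB
  rw [integral_finsetSum_measure]
  · have h1 : ∀ v ∈ range (J + 1), ∫ x : ℝ, Complex.exp (t * x * Complex.I)
        ∂(ENNReal.ofReal (bw J v) • Measure.dirac ((2 * (v : ℝ) - J) / √J)) =
        (Complex.exp (((((√J)⁻¹ * t : ℝ)) : ℂ) * Complex.I) / 2) ^ v *
        (Complex.exp (-(((((√J)⁻¹ * t : ℝ)) : ℂ) * Complex.I)) / 2) ^ (J - v) * (J.choose v : ℂ) := by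
      intro v hv
      rw [Finset.mem_range] at hv
      have hvJ : v ≤ J := by omega
      rw [integral_smul_measure, integral_dirac, ENNReal.toReal_ofReal (bwt_nonneg J v),
        Complex.real_smul]
      unfold bw
      rw [div_pow, div_pow, ← Complex.exp_nat_mul, ← Complex.exp_nat_mul]
      have h2 : (t : ℂ) * (((2 * (v : ℝ) - J) / √J : ℝ) : ℂ) * Complex.I =
          (v : ℂ) * (((((√J)⁻¹ * t : ℝ)) : ℂ) * Complex.I) +
          ((J - v : ℕ) : ℂ) * (-(((((√J)⁻¹ * t : ℝ)) : ℂ) * Complex.I)) := by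
        rw [Nat.cast_sub hvJ]
        push_cast
        ring
      rw [h2, Complex.exp_add]
      have h3 : (2 : ℂ) ^ J = 2 ^ v * 2 ^ (J - v) := by
        rw [← pow_add]
        congr 1
        omega
      push_cast
      rw [h3]
      field_simp
    rw [Finset.sum_congr rfl h1, ← add_pow]
    congr 1
    ring
  · intro v _
    exact (integrable_dirac (by simp)).smul_measure ENNReal.ofReal_ne_top

theorem tendsto_charFun_lawB (t : ℝ) :
    Tendsto (fun J : ℕ => charFun (lawB J) t) atTop (𝓝 (Complex.exp (-t ^ 2 / 2))) := by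
  have h := tendsto_charFun_inv_sqrt_mul_pow (P := sgnM) (X := id) aemeasurable_id
    (by rw [integral_sgnM]; simp) (by rw [integral_sgnM]; simp; norm_num) t
  simp only [Measure.map_id] at h
  refine h.congr ?_
  intro J
  rw [charFun_lawB]

/-- the law of `(2 v - J) / √J` as a probability measure -/
noncomputable def lawP (J : ℕ) : ProbabilityMeasure ℝ := ⟨lawB J, inferInstance⟩

/-- the normal law -/
noncomputable def gaussP : ProbabilityMeasure ℝ := ⟨gaussianReal 0 1, inferInstance⟩

theorem tendsto_lawP : Tendsto lawP atTop (𝓝 gaussP) := by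
  refine ProbabilityMeasure.tendsto_iff_tendsto_charFun.2 fun t => ?_
  have h := tendsto_charFun_lawB t
  have h2 : charFun (gaussP : Measure ℝ) t = Complex.exp (-t ^ 2 / 2) := by
    show charFun (gaussianReal 0 1) t = _
    rw [charFun_gaussianReal]
    simp [neg_div]
  rw [h2]
  exact h

/-- the distribution function of the normal law -/
noncomputable def PhiG (z : ℝ) : ℝ := (gaussianReal 0 1).real (Set.Iic z)

open Classical in
/-- De Moivre -/
theorem binCLT₀ (z : ℝ) : Tendsto (fun J : ℕ =>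
    ∑ v ∈ (range (J + 1)).filter (fun v : ℕ => (2 * (v : ℝ) - J) / √J ≤ z), bw J v) atTop
    (𝓝 (PhiG z)) := by
  have h := ProbabilityMeasure.tendsto_measure_of_null_frontier_of_tendsto' tendsto_lawP
    (E := Set.Iic z) (by
      rw [frontier_Iic]
      show gaussianReal 0 1 {z} = 0
      have := nullSingletonClass_gaussianReal (μ := 0) (v := 1) (by norm_num)
      exact measure_singleton z)
  have h2 : Tendsto (fun J : ℕ => ((lawP J : Measure ℝ) (Set.Iic z)).toReal) atTop
      (𝓝 (((gaussP : Measure ℝ) (Set.Iic z)).toReal)) :=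
    (ENNReal.tendsto_toReal (measure_ne_top _ _)).comp h
  refine Tendsto.congr ?_ h2
  intro J
  show ((lawB J) (Set.Iic z)).toReal = _
  rw [lawB_apply J measurableSet_Iic, ENNReal.toReal_ofReal
    (Finset.sum_nonneg fun v _ => bwt_nonneg J v)]
  rfl

theorem PhiG_eq_integral (z : ℝ) :
    PhiG z = (√(2 * Real.pi))⁻¹ * ∫ x in Set.Iic z, Real.exp (-x ^ 2 / 2) := by
  unfold PhiG Measure.real
  rw [gaussianReal_apply_eq_integral 0 (v := 1) (by norm_num) (Set.Iic z), ENNReal.toReal_ofReal
    (integral_nonneg fun x => gaussianPDFReal_nonneg 0 1 x), ← integral_const_mul]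
  congr 1
  ext x
  simp [gaussianPDFReal]

theorem PhiG_eq_cdf (z : ℝ) : PhiG z = cdf (gaussianReal 0 1) z := (cdf_eq_real _ z).symm

theorem PhiG_nonneg (z : ℝ) : 0 ≤ PhiG z := by
  rw [PhiG_eq_cdf]
  exact cdf_nonneg _ z

theorem PhiG_le_one (z : ℝ) : PhiG z ≤ 1 := by
  rw [PhiG_eq_cdf]
  exact cdf_le_one _ z

theorem PhiG_mono : Monotone PhiG := by
  intro x y h
  rw [PhiG_eq_cdf, PhiG_eq_cdf]
  exact monotone_cdf _ h

theorem tendsto_PhiG_atTop : Tendsto PhiG atTop (𝓝 1) := by
  have h := tendsto_cdf_atTop (gaussianReal 0 1)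
  exact h.congr fun z => (PhiG_eq_cdf z).symm

theorem tendsto_PhiG_atBot : Tendsto PhiG atBot (𝓝 0) := by
  have h := tendsto_cdf_atBot (gaussianReal 0 1)
  exact h.congr fun z => (PhiG_eq_cdf z).symm

theorem PhiG_lip {x y : ℝ} (h : x ≤ y) : PhiG y - PhiG x ≤ y - x := by
  have h1 : (gaussianReal 0 1) (Set.Ioc x y) ≤ ENNReal.ofReal (y - x) := by
    rw [gaussianReal_apply 0 (v := 1) (by norm_num)]
    calc ∫⁻ t in Set.Ioc x y, gaussianPDF 0 1 t ≤ ∫⁻ _ in Set.Ioc x y, 1 := by
          apply lintegral_mono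
          intro t
          rw [gaussianPDF_def]
          rw [ENNReal.ofReal_le_one]
          unfold gaussianPDFReal
          have h2 : (√(2 * Real.pi * ((1 : NNReal) : ℝ)))⁻¹ ≤ 1 := by
            apply inv_le_one_of_one_le₀
            rw [Real.one_le_sqrt]
            have := Real.pi_gt_three
            push_cast
            linarith
          have h3 : Real.exp (-(t - 0) ^ 2 / (2 * ((1 : NNReal) : ℝ))) ≤ 1 := by
            apply Real.exp_le_one_iff.2
            push_cast
            have := sq_nonneg (t - 0)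
            linarith
          calc _ ≤ 1 * (1 : ℝ) := mul_le_mul h2 h3 (Real.exp_pos _).le (by norm_num)
            _ = 1 := by norm_num
      _ = ENNReal.ofReal (y - x) := by
          rw [setLIntegral_one, Real.volume_Ioc]
  have h2 : PhiG y - PhiG x = (gaussianReal 0 1).real (Set.Ioc x y) := by
    unfold PhiG
    have h3 : Set.Iic y = Set.Iic x ∪ Set.Ioc x y := (Set.Iic_union_Ioc_eq_Iic h).symm
    rw [h3, measureReal_union _ measurableSet_Ioc]
    · ring
    · rw [Set.disjoint_left]
      intro t ht ht'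
      exact absurd ht'.1 (not_lt.2 ht)
  rw [h2]
  unfold Measure.real
  exact ENNReal.toReal_le_of_le_ofReal (by linarith) h1

/-- De Moivre, general form -/
theorem binCLT {α : Type*} {l : Filter α} {J : α → ℕ} {a : α → ℝ} {z : ℝ}
    (hJ : Tendsto J l atTop)
    (ha : Tendsto (fun x => (2 * a x - J x) / √(J x)) l (𝓝 z)) :
    Tendsto (fun x => ∑ v ∈ (range (J x + 1)).filter (fun v : ℕ => (v : ℝ) ≤ a x), bw (J x) v) l
      (𝓝 (PhiG z)) := by
  classical
  rw [Metric.tendsto_nhds]
  intro ε hε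
  have h1 := (binCLT₀ (z - ε / 4)).comp hJ
  have h2 := (binCLT₀ (z + ε / 4)).comp hJ
  rw [Metric.tendsto_nhds] at h1 h2 ha
  filter_upwards [h1 (ε / 4) (by linarith), h2 (ε / 4) (by linarith), ha (ε / 4) (by linarith),
    hJ.eventually_ge_atTop 1] with x hx1 hx2 hx3 hx4
  simp only [Function.comp_apply] at hx1 hx2
  rw [Real.dist_eq, abs_lt] at hx1 hx2 hx3 ⊢
  have hsq : 0 < √(J x : ℝ) := Real.sqrt_pos.2 (by exact_mod_cast hx4)
  have hsub1 : (range (J x + 1)).filter (fun v : ℕ => (2 * (v : ℝ) - J x) / √(J x) ≤ z - ε / 4) ⊆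
      (range (J x + 1)).filter (fun v : ℕ => (v : ℝ) ≤ a x) := by
    intro v hv
    rw [Finset.mem_filter] at hv ⊢
    refine ⟨hv.1, ?_⟩
    have h3 : (2 * (v : ℝ) - J x) / √(J x) ≤ (2 * a x - J x) / √(J x) := by linarith [hv.2]
    rw [div_le_div_iff_of_pos_right hsq] at h3
    linarith
  have hsub2 : (range (J x + 1)).filter (fun v : ℕ => (v : ℝ) ≤ a x) ⊆
      (range (J x + 1)).filter (fun v : ℕ => (2 * (v : ℝ) - J x) / √(J x) ≤ z + ε / 4) := by
    intro v hv
    rw [Finset.mem_filter] at hv ⊢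
    refine ⟨hv.1, ?_⟩
    have h3 : (2 * (v : ℝ) - J x) / √(J x) ≤ (2 * a x - J x) / √(J x) := by
      rw [div_le_div_iff_of_pos_right hsq]
      linarith [hv.2]
    linarith
  have h3 := Finset.sum_le_sum_of_subset_of_nonneg hsub1 (f := bw (J x))
    (fun v _ _ => bwt_nonneg _ v)
  have h4 := Finset.sum_le_sum_of_subset_of_nonneg hsub2 (f := bw (J x))
    (fun v _ _ => bwt_nonneg _ v)
  have h5 := PhiG_lip (show z - ε / 4 ≤ z by linarith)
  have h6 := PhiG_lip (show z ≤ z + ε / 4 by linarith)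
  constructor <;> linarith

end Pool.Agent.Lib.MP_edb5be_nt.ND.H82
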