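import Pool.Agent.Lib.MP_edb5be_nt.ND.H82.Fam

set_option autoImplicit false

/-!
The weak law on the late side: `D - η ≤ F s x` for `s ≥ 2 x / mu`, then for
`s ≥ x / mu + x ^ 0.7`.
-/

namespace Pool.Agent.Lib.MP_edb5be_nt.ND.H82

open Finset Filter Pool.Agent.Lib.MP_0a5adf_nt.TP Pool.Agent.Lib.MP_edb5be_nt.ND
open scoped Topology

/-- On bounded ranges everything is reached after a finite time. -/
def Base (F : ℕ → ℝ → ℝ) (D : ℝ) : Prop :=
  ∀ η : ℝ, 0 < η → ∃ x₀ : ℝ, ∀ M : ℝ, ∃ t₀ : ℕ, ∀ t : ℕ, t₀ ≤ t → ∀ x : ℝ, x₀ ≤ x → x ≤ M →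
    D - η ≤ F t x

theorem ev_half (lo : ℝ) : ∀ᶠ x : ℝ in atTop, max (√x) (10 / 9 * lo) + x ^ (3 / 5 : ℝ) ≤ x / 2 ∧
    x ^ (3 / 5 : ℝ) + 1 ≤ x / 6 := by
  have h1 : Tendsto (fun x : ℝ => x ^ (2 / 5 : ℝ)) atTop atTop := tendsto_rpow_atTop (by norm_num)
  filter_upwards [h1.eventually_ge_atTop 12, eventually_ge_atTop (12 : ℝ),
    eventually_ge_atTop (10 * |lo|)] with x hx hx1 hx2
  have hx0 : 0 < x := by linarith
  have h2 : x = x ^ (3 / 5 : ℝ) * x ^ (2 / 5 : ℝ) := by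
    rw [← Real.rpow_add hx0]
    norm_num
  have h3 : √x ≤ x ^ (3 / 5 : ℝ) := by
    rw [Real.sqrt_eq_rpow]
    exact Real.rpow_le_rpow_of_exponent_le (by linarith) (by norm_num)
  have h4 : 0 ≤ x ^ (3 / 5 : ℝ) := by positivity
  have h5 : 12 * x ^ (3 / 5 : ℝ) ≤ x := by
    nth_rewrite 2 [h2]
    nlinarith
  have h6 := le_abs_self lo
  have h7 := abs_nonneg lo
  refine ⟨?_, by linarith⟩
  have h8 : max (√x) (10 / 9 * lo) ≤ x / 6 + x / 12 := by
    apply max_le
    · linarith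
    · linarith
  linarith

theorem cwl {F : ℕ → ℝ → ℝ} {lo C u₀ D : ℝ} (hC : 0 ≤ C) (hF : TGF F lo C u₀) (hD : D ≤ 2)
    (hB : Base F D) (η : ℝ) (hη : 0 < η) :
    ∀ᶠ x : ℝ in atTop, ∀ s : ℕ, 2 * x ≤ mu * s → D - η ≤ F s x := by
  have hmu := mu_lo
  have hmu0 := mu_pos
  have hmu1 := mu_le
  obtain ⟨x₀, hx₀⟩ := hB (η / 2) (by linarith)
  have hall := (km C u₀ hC).and (ev_exp.and (ev_half lo))
  rw [eventually_atTop] at hall
  obtain ⟨X, hX⟩ := hall
  obtain ⟨C₂, hC₂⟩ : ∃ C₂, C₂ = 6 * (C + 8) + 4 := ⟨_, rfl⟩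
  have hC₂0 : 0 < C₂ := by
    rw [hC₂]
    positivity
  obtain ⟨X₀, hX₀⟩ : ∃ X₀, X₀ = max (max X x₀) (max 1 (8 * C₂ / η)) := ⟨_, rfl⟩
  have hXX : X ≤ X₀ := by
    rw [hX₀]
    exact (le_max_left _ _).trans (le_max_left _ _)
  have hxX : x₀ ≤ X₀ := by
    rw [hX₀]
    exact (le_max_right _ _).trans (le_max_left _ _)
  have h1X : 1 ≤ X₀ := by
    rw [hX₀]
    exact (le_max_left _ _).trans (le_max_right _ _)
  have hηX : 8 * C₂ / η ≤ X₀ := by
    rw [hX₀]
    exact (le_max_right _ _).trans (le_max_right _ _)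
  have hX0 : 0 < X₀ := by linarith
  obtain ⟨t₀, ht₀⟩ := hx₀ (4 * X₀)
  have hclaim : ∀ n : ℕ, ∀ x : ℝ, X₀ ≤ x → x ≤ 4 * X₀ * (3 / 2) ^ n → ∀ s : ℕ,
      3 / 2 * x + mu * t₀ ≤ mu * s → D - η / 2 - 2 * C₂ * (2 / X₀ - 1 / x) ≤ F s x := by
    intro n
    have hE : ∀ x : ℝ, X₀ ≤ x → 0 ≤ 2 * C₂ * (2 / X₀ - 1 / x) := by
      intro x hx
      have h1 : 1 / x ≤ 1 / X₀ := one_div_le_one_div_of_le hX0 hx
      have h2 : 0 < 1 / X₀ := by positivity
      have h3 : 2 / X₀ = 1 / X₀ + 1 / X₀ := by ring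
      rw [h3]
      apply mul_nonneg (by positivity)
      linarith
    have hbase : ∀ x : ℝ, X₀ ≤ x → x ≤ 4 * X₀ → ∀ s : ℕ,
        3 / 2 * x + mu * t₀ ≤ mu * s → D - η / 2 - 2 * C₂ * (2 / X₀ - 1 / x) ≤ F s x := by
      intro x hx hx4 s hs
      have h1 : t₀ ≤ s := by
        have h2 : mu * t₀ ≤ mu * s := by linarith
        have h3 := le_of_mul_le_mul_left h2 hmu0
        exact_mod_cast h3
      have h2 := ht₀ s h1 x (hxX.trans hx) hx4
      have h3 := hE x hx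
      linarith
    induction n with
    | zero =>
      intro x hx hx4 s hs
      exact hbase x hx (by simpa using hx4) s hs
    | succ n ih =>
      intro x hx hxn s hs
      rcases le_or_gt x (4 * X₀) with hx4 | hx4
      · exact hbase x hx hx4 s hs
      obtain ⟨hkm, hexp, hh1, hh2⟩ := hX x (hXX.trans hx)
      have hx0 : 0 < x := by linarith
      obtain ⟨K, hK⟩ : ∃ K, K = ⌊x / (2 * mu)⌋₊ := ⟨_, rfl⟩
      have hK1 : (K : ℝ) ≤ x / (2 * mu) := by
        rw [hK]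
        exact Nat.floor_le (by positivity)
      have hK2 : x / (2 * mu) < K + 1 := by
        rw [hK]
        exact Nat.lt_floor_add_one _
      rw [le_div_iff₀ (by positivity)] at hK1
      rw [div_lt_iff₀ (by positivity)] at hK2
      have hK1' : mu * K ≤ x / 2 := by linarith
      have hK2' : x / 2 - mu < mu * K := by linarith
      have hK0 : 0 < K := by
        by_contra h0
        have h0' : K = 0 := by omega
        rw [h0'] at hK2'
        push_cast at hK2'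
        linarith
      have hKs : K ≤ s := by
        have h2 : mu * K ≤ mu * s := by
          have : 0 ≤ mu * t₀ := by positivity
          linarith
        have h3 := le_of_mul_le_mul_left h2 hmu0
        exact_mod_cast h3
      obtain ⟨s', hs'⟩ : ∃ s', s = s' + K := ⟨s - K, by omega⟩
      have h1 := hkm F lo hF s' K (by linarith)
      rw [← hs'] at h1
      have hsm : mu * s = mu * s' + mu * K := by
        rw [hs']
        push_cast
        ring
      have hY : (0 : ℝ) ≤ x ^ (3 / 5 : ℝ) := by positivity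
      have hm2 : D - η / 2 - 2 * C₂ * (2 / X₀ - 1 / (2 / 3 * x)) ≤ 2 := by
        have := hE (2 / 3 * x) (by linarith)
        linarith
      have h2 := PJ_low (K := K) (f := F s') (x := x) (Y := x ^ (3 / 5 : ℝ))
        (m := D - η / 2 - 2 * C₂ * (2 / X₀ - 1 / (2 / 3 * x))) (hF.nn s') hY hm2 (by
          intro y hy
          rw [abs_lt] at hy
          have hy1 : y ≤ 2 / 3 * x := by linarith [hy.2]
          have hy2 : x / 4 ≤ y := by linarith [hy.1]
          have hy0 : 0 < y := by linarith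
          have h3 := ih y (by linarith) (by
            rw [pow_succ] at hxn
            linarith) s' (by linarith)
          have h4 : 1 / (2 / 3 * x) ≤ 1 / y := one_div_le_one_div_of_le hy0 hy1
          have h5 : 2 * C₂ * (2 / X₀ - 1 / y) ≤ 2 * C₂ * (2 / X₀ - 1 / (2 / 3 * x)) := by
            apply mul_le_mul_of_nonneg_left _ (by positivity)
            linarith
          linarith)
      have hK5 : (K : ℝ) ≤ 5 * x := by
        have h0 : (0 : ℝ) ≤ K := Nat.cast_nonneg K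
        nlinarith
      have h3 := hexp K (by exact_mod_cast hK0) hK5
      have h4 := (abs_le.1 h1).1
      have h5 : 2 * C₂ * (2 / X₀ - 1 / (2 / 3 * x)) = 2 * C₂ * (2 / X₀ - 1 / x) - C₂ / x := by
        field_simp
        ring
      rw [h5] at h2
      have h6 : (1 : ℝ) / x ^ 2 ≤ 1 / x := by
        apply div_le_div_of_nonneg_left (by norm_num) hx0
        nlinarith
      have h7 : C₂ / x = 6 * (C + 8) / x + 4 * (1 / x) := by
        rw [hC₂]
        ring
      linarith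
  filter_upwards [eventually_ge_atTop X₀, eventually_ge_atTop (2 * (mu * t₀))] with x hx hxt s hs
  have hx0 : 0 < x := by linarith
  obtain ⟨n, hn⟩ : ∃ n : ℕ, x / (4 * X₀) < (3 / 2 : ℝ) ^ n := pow_unbounded_of_one_lt _ (by norm_num)
  rw [div_lt_iff₀ (by positivity)] at hn
  have h1 := hclaim n x hx (by linarith) s (by linarith)
  have h2 : 2 * C₂ * (2 / X₀ - 1 / x) ≤ η / 2 := by
    have h3 : 0 < 1 / x := by positivity
    have h4 : 2 * C₂ * (2 / X₀ - 1 / x) ≤ 4 * C₂ / X₀ := by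
      have h5 : 4 * C₂ / X₀ = 2 * C₂ * (2 / X₀) := by ring
      rw [h5]
      apply mul_le_mul_of_nonneg_left _ (by positivity)
      linarith
    refine h4.trans ?_
    rw [div_le_iff₀ hX0]
    rw [div_le_iff₀ hη] at hηX
    linarith
  linarith

/-- the sharper weak law -/
theorem swl_low {F : ℕ → ℝ → ℝ} {lo C u₀ D : ℝ} (hC : 0 ≤ C) (hF : TGF F lo C u₀) (hD : D ≤ 2)
    (hB : Base F D) (η : ℝ) (hη : 0 < η) :
    ∀ᶠ x : ℝ in atTop, ∀ s : ℕ, x + mu * x ^ (7 / 10 : ℝ) ≤ mu * s → D - η ≤ F s x := by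
  have hmu := mu_lo
  have hmu0 := mu_pos
  have hmu1 := mu_le
  have hcwl := cwl hC hF hD hB (η / 2) (by linarith)
  have hp : ∀ p : ℝ, 0 < p → Tendsto (fun x : ℝ => x ^ p) atTop atTop :=
    fun p hp => tendsto_rpow_atTop hp
  rw [eventually_atTop] at hcwl
  obtain ⟨x₁, hx₁⟩ := hcwl
  filter_upwards [km C u₀ hC, ev_exp, (hp (1 / 20) (by norm_num)).eventually_ge_atTop 40,
    (hp (13 / 20) (by norm_num)).eventually_ge_atTop (2 * |x₁| + 8 * |lo| + 2),
    eventually_ge_atTop (1 : ℝ), eventually_ge_atTop (12 * (C + 8) * (4 / η) + 16 / η)] with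
    x hkm hexp hx20 hx65 hx1 hxη s hs
  have hx0 : 0 < x := by linarith
  -- powers
  have h65 : x ^ (13 / 20 : ℝ) = x ^ (3 / 5 : ℝ) * x ^ (1 / 20 : ℝ) := by
    rw [← Real.rpow_add hx0]
    norm_num
  have h70 : x ^ (7 / 10 : ℝ) = x ^ (13 / 20 : ℝ) * x ^ (1 / 20 : ℝ) := by
    rw [← Real.rpow_add hx0]
    norm_num
  have h35 : 0 < x ^ (3 / 5 : ℝ) := Real.rpow_pos_of_pos hx0 _
  have h65p : 0 < x ^ (13 / 20 : ℝ) := Real.rpow_pos_of_pos hx0 _
  have h65' : 40 * x ^ (3 / 5 : ℝ) ≤ x ^ (13 / 20 : ℝ) := by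
    rw [h65]
    nlinarith
  have h70' : 40 * x ^ (13 / 20 : ℝ) ≤ x ^ (7 / 10 : ℝ) := by
    rw [h70]
    nlinarith
  have h65x : x ^ (13 / 20 : ℝ) ≤ x := by
    nth_rewrite 2 [← Real.rpow_one x]
    exact Real.rpow_le_rpow_of_exponent_le hx1 (by norm_num)
  have h3 : √x ≤ x ^ (3 / 5 : ℝ) := by
    rw [Real.sqrt_eq_rpow]
    exact Real.rpow_le_rpow_of_exponent_le hx1 (by norm_num)
  have hlo := le_abs_self lo
  have hlo' := abs_nonneg lo
  have hx₁' := le_abs_self x₁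
  have hx₁'' := abs_nonneg x₁
  obtain ⟨K, hK⟩ : ∃ K, K = ⌊(x - x ^ (13 / 20 : ℝ)) / mu⌋₊ := ⟨_, rfl⟩
  have hK1 : (K : ℝ) ≤ (x - x ^ (13 / 20 : ℝ)) / mu := by
    rw [hK]
    exact Nat.floor_le (div_nonneg (by linarith) hmu0.le)
  have hK2 : (x - x ^ (13 / 20 : ℝ)) / mu < K + 1 := by
    rw [hK]
    exact Nat.lt_floor_add_one _
  rw [le_div_iff₀ hmu0] at hK1
  rw [div_lt_iff₀ hmu0] at hK2
  have hKs : K ≤ s := by
    have h2 : mu * K ≤ mu * s := by
      have h7 : 0 ≤ mu * x ^ (7 / 10 : ℝ) := by positivity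
      linarith
    have h3 := le_of_mul_le_mul_left h2 hmu0
    exact_mod_cast h3
  obtain ⟨s', hs'⟩ : ∃ s', s = s' + K := ⟨s - K, by omega⟩
  have hsm : mu * s = mu * s' + mu * K := by
    rw [hs']
    push_cast
    ring
  have hmax : max (√x) (10 / 9 * lo) + x ^ (3 / 5 : ℝ) ≤ x - mu * K := by
    have h4 : max (√x) (10 / 9 * lo) ≤ x ^ (3 / 5 : ℝ) + 10 / 9 * |lo| := by
      apply max_le <;> linarith
    linarith
  have h1 := hkm F lo hF s' K hmax
  rw [← hs'] at h1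
  have h7mu : 1 / 5 * x ^ (7 / 10 : ℝ) ≤ mu * x ^ (7 / 10 : ℝ) :=
    mul_le_mul_of_nonneg_right hmu (by positivity)
  have h2 := PJ_low (K := K) (f := F s') (x := x) (Y := x ^ (3 / 5 : ℝ))
    (m := D - η / 2) (hF.nn s') h35.le (by linarith) (by
      intro y hy
      rw [abs_lt] at hy
      apply hx₁ y (by linarith [hy.1])
      linarith [hy.2])
  have hK5 : (K : ℝ) ≤ 5 * x := by
    have h0 : (0 : ℝ) ≤ K := Nat.cast_nonneg K
    nlinarith
  have h4 := (abs_le.1 h1).1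
  have hsmall : 6 * (C + 8) / x + 4 * (1 / x ^ 2) ≤ η / 2 := by
    have h6 : (1 : ℝ) / x ^ 2 ≤ 1 / x := by
      apply div_le_div_of_nonneg_left (by norm_num) hx0
      nlinarith
    have h7 : 6 * (C + 8) / x + 4 * (1 / x) ≤ η / 2 := by
      have h8 : 6 * (C + 8) / x + 4 * (1 / x) = (6 * (C + 8) + 4) / x := by ring
      rw [h8, div_le_iff₀ hx0]
      have h9 : 12 * (C + 8) * (4 / η) + 16 / η = (48 * (C + 8) + 16) / η := by ring
      rw [h9, div_le_iff₀ hη] at hxη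
      linarith
    linarith
  rcases Nat.eq_zero_or_pos K with hK0 | hK0
  · -- no step at all
    have h5 : D - η / 2 ≤ F s x := by
      apply hx₁ x
      · linarith
      · rw [hK0] at hK2
        push_cast at hK2
        linarith
    linarith
  have h5 := hexp K (by exact_mod_cast hK0) hK5
  linarith

end Pool.Agent.Lib.MP_edb5be_nt.ND.H82
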