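import Pool.Agent.Lib.MP_edb5be_nt.ND.H82.KStep

set_option autoImplicit false

/-!
Families of sets `B_t` with `n ∈ B_(t+1) ↔ T n ∈ B_t`: abstract form of the block proportions,
`K` steps, and the first weak law.
-/

namespace Pool.Agent.Lib.MP_edb5be_nt.ND.H82

open Finset Filter Pool.Agent.Lib.MP_0a5adf_nt.TP Pool.Agent.Lib.MP_edb5be_nt.ND
open scoped Topology

/-- Block proportions `F t x` of the numbers that reach a target below `2 ^ lo` in `t` steps. -/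
structure TGF (F : ℕ → ℝ → ℝ) (lo C u₀ : ℝ) : Prop where
  nn : ∀ t x, 0 ≤ F t x
  le2 : ∀ t x, F t x ≤ 2
  lo0 : 0 ≤ lo
  step : ∀ (t J : ℕ) (u : ℝ), u₀ ≤ u → lo ≤ 9 / 10 * u → (J : ℝ) ≤ u / 20 →
    |F (t + J) u - PJ J (F t) u| ≤ C / u ^ 4
  zero : ∀ (t : ℕ) (x : ℝ), lo + t ≤ x → F t x = 0

/-- the condition `u / 10 ≤ t + J` in the formula costs nothing -/
theorem TGF.of_nat {F : ℕ → ℝ → ℝ} {lo C u₀ : ℝ} (hC : 0 ≤ C) (nn : ∀ t x, 0 ≤ F t x)
    (le2 : ∀ t x, F t x ≤ 2) (lo0 : 0 ≤ lo)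
    (step : ∀ (t J : ℕ) (u : ℝ), u₀ ≤ u → lo ≤ 9 / 10 * u → (J : ℝ) ≤ u / 20 →
      u / 10 ≤ ((t + J : ℕ) : ℝ) → |F (t + J) u - PJ J (F t) u| ≤ C / u ^ 4)
    (zero : ∀ (t : ℕ) (x : ℝ), lo + t ≤ x → F t x = 0) (hu₀ : 0 ≤ u₀) : TGF F lo C u₀ := by
  refine ⟨nn, le2, lo0, ?_, zero⟩
  intro t J u h1 h2 h3
  by_cases h4 : u / 10 ≤ ((t + J : ℕ) : ℝ)
  · exact step t J u h1 h2 h3 h4
  · have hu : 0 ≤ u := hu₀.trans h1
    push_cast at h4
    push Not at h4
    have h5 : F (t + J) u = 0 := by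
      apply zero
      push_cast
      linarith
    have h6 : PJ J (F t) u = 0 := by
      unfold PJ
      apply Finset.sum_eq_zero
      intro v _
      rw [zero t, mul_zero]
      have h7 : (0 : ℝ) ≤ th * v := mul_nonneg thp.le (Nat.cast_nonneg v)
      linarith
    rw [h5, h6, sub_zero, abs_zero]
    positivity

theorem mu_lo : (1 : ℝ) / 5 ≤ mu := by
  unfold mu
  have h : th ≤ 8 / 5 := by
    unfold th
    rw [Real.logb_le_iff_le_rpow (by norm_num) (by norm_num)]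
    have h1 : (3 : ℝ) ^ (5 : ℕ) ≤ (2 : ℝ) ^ (8 : ℕ) := by norm_num
    have h2 : ((2 : ℝ) ^ (8 / 5 : ℝ)) ^ (5 : ℕ) = (2 : ℝ) ^ (8 : ℕ) := by
      rw [← Real.rpow_natCast, ← Real.rpow_mul (by norm_num)]
      norm_num
    exact le_of_pow_le_pow_left₀ (by norm_num) (by positivity) (h2 ▸ h1)
  linarith

theorem th_le : th ≤ 8 / 5 := by
  have := mu_lo
  unfold mu at this
  linarith

theorem mu_le : mu ≤ 1 := by
  unfold mu
  have := thp
  linarith

/-- the exponentially small terms -/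
theorem ev_exp : ∀ᶠ x : ℝ in atTop, ∀ K : ℝ, 0 < K → K ≤ 5 * x →
    Real.exp (-(2 * (x ^ (3 / 5 : ℝ) / th) ^ 2 / K)) ≤ 1 / x ^ 2 := by
  have hth := thp
  have hb : (0 : ℝ) < 2 / (5 * th ^ 2) := by positivity
  have h1 := tendsto_rpow_mul_exp_neg_mul_atTop_nhds_zero 10 (2 / (5 * th ^ 2)) hb
  have h2 : Tendsto (fun x : ℝ => x ^ (1 / 5 : ℝ)) atTop atTop := tendsto_rpow_atTop (by norm_num)
  have h3 := h1.comp h2
  have h4 := h3.eventually (ge_mem_nhds (show (0 : ℝ) < 1 by norm_num))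
  filter_upwards [h4, eventually_gt_atTop 0] with x hx hx0 K hK hK5
  simp only [Function.comp_apply] at hx
  have h5 : (x ^ (1 / 5 : ℝ)) ^ (10 : ℝ) = x ^ 2 := by
    rw [← Real.rpow_mul hx0.le, ← Real.rpow_natCast]
    norm_num
  rw [h5] at hx
  have h6 : Real.exp (-(2 * (x ^ (3 / 5 : ℝ) / th) ^ 2 / K)) ≤
      Real.exp (-(2 / (5 * th ^ 2)) * x ^ (1 / 5 : ℝ)) := by
    apply Real.exp_le_exp.2
    rw [neg_mul]
    apply neg_le_neg
    rw [le_div_iff₀ hK]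
    have h7 : (x ^ (3 / 5 : ℝ)) ^ 2 = x ^ (1 / 5 : ℝ) * x := by
      rw [← Real.rpow_natCast, ← Real.rpow_mul hx0.le]
      nth_rewrite 3 [← Real.rpow_one x]
      rw [← Real.rpow_add hx0]
      norm_num
    rw [div_pow, h7]
    calc 2 / (5 * th ^ 2) * x ^ (1 / 5 : ℝ) * K ≤ 2 / (5 * th ^ 2) * x ^ (1 / 5 : ℝ) * (5 * x) := by
          apply mul_le_mul_of_nonneg_left hK5
          positivity
      _ = 2 * (x ^ (1 / 5 : ℝ) * x / th ^ 2) := by
          field_simp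
  refine h6.trans ?_
  rw [le_div_iff₀ (by positivity)]
  linarith

/-- `K` steps -/
theorem km (C u₀ : ℝ) (hC : 0 ≤ C) : ∀ᶠ x : ℝ in atTop, ∀ (F : ℕ → ℝ → ℝ) (lo : ℝ),
    TGF F lo C u₀ → ∀ s K : ℕ, max (√x) (10 / 9 * lo) + x ^ (3 / 5 : ℝ) ≤ x - mu * K →
    |F (s + K) x - PJ K (F s) x| ≤ 6 * (C + 8) / x := by
  filter_upwards [ev_exp, eventually_ge_atTop 400, eventually_ge_atTop (u₀ ^ 2)] with x hx hx1 hx2
    F lo hF s K hK
  have hx0 : 0 < x := by linarith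
  have hmu := mu_lo
  have hsx : 20 ≤ √x := by
    rw [show (20 : ℝ) = √400 by
      rw [show (400 : ℝ) = 20 ^ 2 by norm_num, Real.sqrt_sq (by norm_num)]]
    exact Real.sqrt_le_sqrt hx1
  have hsu : u₀ ≤ √x := by
    apply Real.le_sqrt_of_sq_le hx2
  rcases Nat.eq_zero_or_pos K with h0 | h0
  · subst h0
    have h1 : PJ 0 (F s) x = F s x := by
      unfold PJ bw
      simp
    rw [h1, add_zero, sub_self, abs_zero]
    positivity
  obtain ⟨w, hw⟩ : ∃ w, w = max (√x) (10 / 9 * lo) := ⟨_, rfl⟩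
  rw [← hw] at hK
  have hwx : √x ≤ w := by
    rw [hw]
    exact le_max_left _ _
  have hwl : 10 / 9 * lo ≤ w := by
    rw [hw]
    exact le_max_right _ _
  obtain ⟨J₀, hJ₀⟩ : ∃ J₀, J₀ = ⌊w / 20⌋₊ := ⟨_, rfl⟩
  have hJ1 : 0 < J₀ := by
    rw [hJ₀]
    apply Nat.floor_pos.2
    linarith
  have hJ2 : (J₀ : ℝ) ≤ w / 20 := by
    rw [hJ₀]
    exact Nat.floor_le (by linarith)
  have hy : (0 : ℝ) ≤ x ^ (3 / 5 : ℝ) := by positivity
  have hstep : ∀ (j J : ℕ) (y : ℝ), w ≤ y → J ≤ J₀ →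
      |F (s + (j + J)) y - PJ J (F (s + j)) y| ≤ C / x ^ 2 := by
    intro j J y hwy hJ
    have h1 : (J : ℝ) ≤ y / 20 := by
      have : (J : ℝ) ≤ J₀ := by exact_mod_cast hJ
      linarith
    have h2 := hF.step (s + j) J y (by linarith) (by linarith) h1
    rw [← add_assoc]
    refine h2.trans ?_
    apply div_le_div_of_nonneg_left hC (by positivity)
    have h3 : √x ≤ y := hwx.trans hwy
    calc x ^ 2 = √x ^ 4 := by
          rw [show (4 : ℕ) = 2 * 2 by norm_num, pow_mul, Real.sq_sqrt hx0.le]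
      _ ≤ y ^ 4 := pow_le_pow_left₀ (Real.sqrt_nonneg x) h3 4
  have h1 := kstep (G := fun j => F (s + j)) (w := w) (ε := C / x ^ 2) (y := x ^ (3 / 5 : ℝ))
    (J₀ := J₀) (K := K) (fun j y => by
      rw [abs_of_nonneg (hF.nn _ _)]
      exact hF.le2 _ _) (by positivity) hJ1 hy hstep 0 x hK
  simp only [zero_add, add_zero] at h1
  refine h1.trans ?_
  have hKR : (0 : ℝ) < K := by exact_mod_cast h0
  have hK5 : (K : ℝ) ≤ 5 * x := by
    have h2 : mu * K ≤ x := by linarith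
    nlinarith
  have h2 := hx K hKR hK5
  have h3 : (K : ℝ) / J₀ + 1 ≤ 6 * x := by
    have h4 : (K : ℝ) / J₀ ≤ K := div_le_self hKR.le (by exact_mod_cast hJ1)
    linarith
  calc ((K : ℝ) / J₀ + 1) * (C / x ^ 2 +
        8 * Real.exp (-(2 * (x ^ (3 / 5 : ℝ) / th) ^ 2 / K)))
      ≤ 6 * x * (C / x ^ 2 + 8 * (1 / x ^ 2)) := by
        apply mul_le_mul h3 _ (by positivity) (by positivity)
        linarith
    _ = 6 * (C + 8) / x := by
        field_simp

/-- lower bound of an average -/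
theorem PJ_low {K : ℕ} {f : ℝ → ℝ} {x Y m : ℝ} (hf : ∀ y, 0 ≤ f y) (hY : 0 ≤ Y)
    (hm : m ≤ 2) (h : ∀ y, |y - (x - mu * K)| < Y → m ≤ f y) :
    m - 4 * Real.exp (-(2 * (Y / th) ^ 2 / K)) ≤ PJ K f x := by
  classical
  have hth := thp
  have hPJ : 0 ≤ PJ K f x := Finset.sum_nonneg fun v _ => mul_nonneg (bw_nn K v) (hf _)
  rcases le_or_gt m 0 with h0 | h0
  · have : 0 < Real.exp (-(2 * (Y / th) ^ 2 / K)) := Real.exp_pos _
    linarith
  have h1 := Pool.Agent.Lib.MP_0a5adf_nt.TP.H15.hoeff K (Y / th) (by positivity)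
  have h2 : ∑ v ∈ (range (K + 1)).filter (fun k : ℕ => Y / th ≤ |(k : ℝ) - K / 2|), bw K v ≤
      2 * Real.exp (-(2 * (Y / th) ^ 2 / K)) := by
    have h6 : ∑ v ∈ (range (K + 1)).filter (fun k : ℕ => Y / th ≤ |(k : ℝ) - K / 2|), bw K v =
        (∑ k ∈ (range (K + 1)).filter (fun k : ℕ => Y / th ≤ |(k : ℝ) - K / 2|),
          (K.choose k : ℝ)) / 2 ^ K := by
      unfold bw
      rw [Finset.sum_div]
    rw [h6, div_le_iff₀ (by positivity)]
    linarith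
  have h3 := Finset.sum_filter_add_sum_filter_not (range (K + 1))
    (fun k : ℕ => Y / th ≤ |(k : ℝ) - K / 2|) (fun v => bw K v)
  rw [H50.sum_bw] at h3
  have h4 : m * ∑ v ∈ (range (K + 1)).filter (fun k : ℕ => ¬ Y / th ≤ |(k : ℝ) - K / 2|), bw K v ≤
      PJ K f x := by
    unfold PJ
    rw [Finset.mul_sum]
    refine le_trans ?_ (Finset.sum_le_sum_of_subset_of_nonneg (Finset.filter_subset
      (fun k : ℕ => ¬ Y / th ≤ |(k : ℝ) - K / 2|) _)
      (fun v _ _ => mul_nonneg (bw_nn K v) (hf _)))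
    apply Finset.sum_le_sum
    intro v hv
    rw [Finset.mem_filter, not_le] at hv
    rw [mul_comm]
    apply mul_le_mul_of_nonneg_left _ (bw_nn K v)
    apply h
    have h5 : x - K + th * v - (x - mu * K) = th * ((v : ℝ) - K / 2) := by
      unfold mu
      ring
    rw [h5, abs_mul, abs_of_pos hth]
    have h6 := hv.2
    rw [lt_div_iff₀ hth] at h6
    linarith
  obtain ⟨A, hA⟩ : ∃ A, A = ∑ v ∈ (range (K + 1)).filter
    (fun k : ℕ => Y / th ≤ |(k : ℝ) - K / 2|), bw K v := ⟨_, rfl⟩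
  obtain ⟨S, hS⟩ : ∃ S, S = ∑ v ∈ (range (K + 1)).filter
    (fun k : ℕ => ¬ Y / th ≤ |(k : ℝ) - K / 2|), bw K v := ⟨_, rfl⟩
  rw [← hA] at h2 h3
  rw [← hS] at h3 h4
  have hA0 : 0 ≤ A := by
    rw [hA]
    exact Finset.sum_nonneg fun v _ => bw_nn K v
  have h5 : S = 1 - A := by linarith
  rw [h5] at h4
  have h6 : m * A ≤ 2 * A := mul_le_mul_of_nonneg_right hm hA0
  linarith

/-- upper bound of an average -/
theorem PJ_up {K : ℕ} {f : ℝ → ℝ} {x Y m : ℝ} (hf : ∀ y, f y ≤ 2) (hY : 0 ≤ Y)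
    (hm : 0 ≤ m) (h : ∀ y, |y - (x - mu * K)| < Y → f y ≤ m) :
    PJ K f x ≤ m + 4 * Real.exp (-(2 * (Y / th) ^ 2 / K)) := by
  have h1 := PJ_low (K := K) (f := fun y => 2 - f y) (x := x) (Y := Y) (m := 2 - m)
    (fun y => by have := hf y; linarith) hY (by linarith)
    (fun y hy => by have := h y hy; linarith)
  have h2 : PJ K (fun y => 2 - f y) x = 2 - PJ K f x := by
    unfold PJ
    have h3 : ∀ v ∈ range (K + 1), bw K v * (2 - f (x - K + th * v)) =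
        bw K v * 2 - bw K v * f (x - K + th * v) := by
      intro v _
      ring
    rw [Finset.sum_congr rfl h3, Finset.sum_sub_distrib, ← Finset.sum_mul, H50.sum_bw, one_mul]
  rw [h2] at h1
  linarith

/-- SWL, too early: nothing is reached before `(x - 2 lo) / mu - x ^ 0.7` steps -/
theorem swl_up (C u₀ : ℝ) (hC : 0 ≤ C) : ∀ᶠ x : ℝ in atTop, ∀ (F : ℕ → ℝ → ℝ) (lo : ℝ),
    TGF F lo C u₀ → ∀ s : ℕ, mu * s + 2 * lo + mu * x ^ (7 / 10 : ℝ) ≤ x →
    F s x ≤ 6 * (C + 9) / x := by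
  have hmu := mu_lo
  have hev : ∀ᶠ x : ℝ in atTop, √x + x ^ (3 / 5 : ℝ) ≤ 1 / 5 * x ^ (7 / 10 : ℝ) := by
    have h1 : Tendsto (fun x : ℝ => x ^ (1 / 10 : ℝ)) atTop atTop :=
      tendsto_rpow_atTop (by norm_num)
    filter_upwards [h1.eventually_ge_atTop 10, eventually_ge_atTop 1] with x hx hx1
    have hx0 : 0 < x := by linarith
    have h2 : x ^ (7 / 10 : ℝ) = x ^ (3 / 5 : ℝ) * x ^ (1 / 10 : ℝ) := by
      rw [← Real.rpow_add hx0]
      norm_num
    have h3 : √x ≤ x ^ (3 / 5 : ℝ) := by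
      rw [Real.sqrt_eq_rpow]
      exact Real.rpow_le_rpow_of_exponent_le hx1 (by norm_num)
    have h4 : 0 ≤ x ^ (3 / 5 : ℝ) := by positivity
    rw [h2]
    nlinarith
  filter_upwards [km C u₀ hC, ev_exp, hev, eventually_ge_atTop 1] with x hkm hexp hx hx1 F lo hF s hs
  have hx0 : 0 < x := by linarith
  have hlo := hF.lo0
  have h7 : (0 : ℝ) ≤ x ^ (7 / 10 : ℝ) := by positivity
  have h35 : (0 : ℝ) ≤ x ^ (3 / 5 : ℝ) := by positivity
  have h75 : 1 / 5 * x ^ (7 / 10 : ℝ) ≤ mu * x ^ (7 / 10 : ℝ) :=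
    mul_le_mul_of_nonneg_right hmu h7
  have hmax : max (√x) (10 / 9 * lo) + x ^ (3 / 5 : ℝ) ≤ x - mu * s := by
    have h1 : max (√x) (10 / 9 * lo) ≤ √x + 10 / 9 * lo := by
      apply max_le
      · linarith
      · have := Real.sqrt_nonneg x
        linarith
    linarith
  have h1 := hkm F lo hF 0 s hmax
  rw [zero_add] at h1
  have h2 : PJ s (F 0) x ≤ 0 + 4 * (1 / x ^ 2) := by
    rcases Nat.eq_zero_or_pos s with h0 | h0
    · subst h0
      have h3 : PJ 0 (F 0) x = F 0 x := by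
        unfold PJ bw
        simp
      rw [h3, hF.zero 0 x]
      · positivity
      · have := Real.sqrt_nonneg x
        push_cast at hs ⊢
        linarith
    · have h3 := PJ_up (K := s) (f := F 0) (x := x) (Y := x ^ (3 / 5 : ℝ)) (m := 0)
        (hF.le2 0) h35 le_rfl (fun y hy => by
          rw [hF.zero 0 y]
          rw [abs_lt] at hy
          push_cast
          have := Real.sqrt_nonneg x
          linarith [hy.1])
      have h4 : (s : ℝ) ≤ 5 * x := by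
        have h5 : mu * s ≤ x := by linarith
        have h6 : (0 : ℝ) ≤ s := Nat.cast_nonneg s
        nlinarith
      have h5 := hexp s (by exact_mod_cast h0) h4
      linarith
  have h3 := (abs_le.1 h1).2
  have h4 : (1 : ℝ) / x ^ 2 ≤ 1 / x := by
    apply div_le_div_of_nonneg_left (by norm_num) hx0
    nlinarith
  have h5 : 6 * (C + 9) / x = 6 * (C + 8) / x + 6 * (1 / x) := by ring
  rw [h5]
  have h6 : 0 ≤ 1 / x := by positivity
  linarith

end Pool.Agent.Lib.MP_edb5be_nt.ND.H82
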