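import Pool.Agent.Lib.MP_edb5be_nt.ND.H82.Cwl
import Pool.Agent.Lib.MP_edb5be_nt.ND.H82.BinCLT

set_option autoImplicit false

/-!
The Gaussian law of the time: `F (t u) u → D * PhiG z` if
`(2 mu t - 2 u) / (th √(u / mu)) → z`.
-/

namespace Pool.Agent.Lib.MP_edb5be_nt.ND.H82

open Finset Filter Pool.Agent.Lib.MP_0a5adf_nt.TP Pool.Agent.Lib.MP_edb5be_nt.ND
open scoped Topology

/-- number of steps of the main stage -/
noncomputable def KK (u : ℝ) : ℕ := ⌊(u - u ^ (13 / 20 : ℝ)) / mu⌋₊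

theorem rpow_le_self {u p : ℝ} (hu : 1 ≤ u) (hp : p ≤ 1) : u ^ p ≤ u := by
  nth_rewrite 2 [← Real.rpow_one u]
  exact Real.rpow_le_rpow_of_exponent_le hu hp

theorem KK_le {u : ℝ} (hu : 1 ≤ u) : mu * KK u ≤ u - u ^ (13 / 20 : ℝ) := by
  have hmu := mu_pos
  have h1 : ((KK u : ℕ) : ℝ) ≤ (u - u ^ (13 / 20 : ℝ)) / mu := by
    unfold KK
    apply Nat.floor_le
    apply div_nonneg _ hmu.le
    have := rpow_le_self hu (show (13 / 20 : ℝ) ≤ 1 by norm_num)
    linarith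
  rw [le_div_iff₀ hmu] at h1
  linarith

theorem lt_KK (u : ℝ) : u - u ^ (13 / 20 : ℝ) < mu * KK u + mu := by
  have hmu := mu_pos
  have h1 : (u - u ^ (13 / 20 : ℝ)) / mu < (KK u : ℝ) + 1 := by
    unfold KK
    exact Nat.lt_floor_add_one _
  rw [div_lt_iff₀ hmu] at h1
  linarith

theorem tendsto_KK_ratio : Tendsto (fun u : ℝ => (KK u : ℝ) / (u / mu)) atTop (𝓝 1) := by
  have hmu := mu_pos
  have h1 : Tendsto (fun u : ℝ => 1 - u ^ (-(7 / 20) : ℝ) - mu / u) atTop (𝓝 1) := by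
    have h2 : Tendsto (fun u : ℝ => u ^ (-(7 / 20) : ℝ)) atTop (𝓝 0) :=
      tendsto_rpow_neg_atTop (by norm_num)
    have h3 : Tendsto (fun u : ℝ => mu / u) atTop (𝓝 0) := tendsto_const_nhds.div_atTop tendsto_id
    have h4 := (tendsto_const_nhds (x := (1 : ℝ))).sub h2 |>.sub h3
    simpa using h4
  refine tendsto_of_tendsto_of_tendsto_of_le_of_le' h1 (tendsto_const_nhds (x := (1 : ℝ))) ?_ ?_
  · filter_upwards [eventually_ge_atTop (1 : ℝ)] with u hu
    have hu0 : 0 < u := by linarith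
    have h2 := lt_KK u
    rw [le_div_iff₀ (by positivity)]
    have h3 : (1 - u ^ (-(7 / 20) : ℝ) - mu / u) * (u / mu) = (u - u ^ (13 / 20 : ℝ) - mu) / mu := by
      have h4 : u ^ (13 / 20 : ℝ) = u * u ^ (-(7 / 20) : ℝ) := by
        nth_rewrite 2 [← Real.rpow_one u]
        rw [← Real.rpow_add hu0]
        norm_num
      rw [h4]
      field_simp
    rw [h3, div_le_iff₀ hmu]
    linarith
  · filter_upwards [eventually_ge_atTop (1 : ℝ)] with u hu
    have hu0 : 0 < u := by linarith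
    have h2 := KK_le hu
    rw [div_le_one (by positivity), le_div_iff₀ hmu]
    have : 0 < u ^ (13 / 20 : ℝ) := Real.rpow_pos_of_pos hu0 _
    linarith

theorem tendsto_KK : Tendsto (fun u : ℝ => KK u) atTop atTop := by
  have hmu := mu_pos
  have h1 : Tendsto (fun u : ℝ => (KK u : ℝ)) atTop atTop := by
    have h2 := tendsto_KK_ratio
    have h3 : Tendsto (fun u : ℝ => u / mu) atTop atTop := tendsto_id.atTop_div_const hmu
    have h4 := h2.pos_mul_atTop (by norm_num) h3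
    refine h4.congr' ?_
    filter_upwards [eventually_gt_atTop (0 : ℝ)] with u hu
    field_simp
  exact tendsto_natCast_atTop_iff.1 h1

theorem tendsto_sqrt_ratio :
    Tendsto (fun u : ℝ => √(u / mu) / √(KK u : ℝ)) atTop (𝓝 1) := by
  have h1 := tendsto_KK_ratio
  have h2 := (h1.sqrt).inv₀ (by norm_num)
  simp only [Real.sqrt_one, inv_one] at h2
  refine h2.congr' ?_
  filter_upwards [eventually_gt_atTop (0 : ℝ)] with u hu
  rw [Real.sqrt_div (Nat.cast_nonneg _), inv_div]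

theorem limA {α : Type*} {l : Filter α} {u r : α → ℝ} {t : α → ℕ} {z : ℝ}
    (hu : Tendsto u l atTop)
    (ht : Tendsto (fun a => (2 * mu * t a - 2 * u a) / (th * √(u a / mu))) l (𝓝 z))
    (hr : Tendsto (fun a => r a / √(u a)) l (𝓝 0)) :
    Tendsto (fun a => (2 * mu * t a - 2 * u a + 2 * r a) / (th * √(KK (u a) : ℝ))) l (𝓝 z) := by
  have hmu := mu_pos
  have hth := thp
  have h1 := tendsto_sqrt_ratio.comp hu
  have h2 : Tendsto (fun a => (2 * mu * t a - 2 * u a) / (th * √(u a / mu)) +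
      2 * √mu / th * (r a / √(u a))) l (𝓝 z) := by
    have h3 := ht.add (hr.const_mul (2 * √mu / th))
    simpa using h3
  have h4 := h2.mul h1
  rw [mul_one] at h4
  refine h4.congr' ?_
  filter_upwards [hu.eventually_gt_atTop 0, (tendsto_KK.comp hu).eventually_gt_atTop 0] with a ha hK
  simp only [Function.comp_apply] at hK ⊢
  have hsu : 0 < √(u a) := Real.sqrt_pos.2 ha
  have hsm : 0 < √mu := Real.sqrt_pos.2 hmu
  have hsK : 0 < √(KK (u a) : ℝ) := Real.sqrt_pos.2 (by exact_mod_cast hK)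
  rw [Real.sqrt_div ha.le]
  have hm2 : √mu * √mu = mu := Real.mul_self_sqrt hmu.le
  field_simp

theorem A_eq (K t s : ℕ) (u r : ℝ) (h : t = s + K) :
    (2 * ((K - u + mu * s + r) / th) - K) / √(K : ℝ) =
      (2 * mu * t - 2 * u + 2 * r) / (th * √(K : ℝ)) := by
  have hth := thp
  rw [h]
  push_cast
  rcases eq_or_ne (√(K : ℝ)) 0 with h0 | h0
  · rw [h0]
    simp
  unfold mu
  field_simp
  ring

theorem ev_geom (C : ℝ) (x₂ : ℝ) : ∀ᶠ u : ℝ in atTop,
    40 * u ^ (3 / 5 : ℝ) ≤ u ^ (13 / 20 : ℝ) ∧ 2 * |x₂| + 4 ≤ u ^ (13 / 20 : ℝ) ∧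
    √u ≤ u ^ (3 / 5 : ℝ) ∧ (∀ x : ℝ, 0 ≤ x → x ≤ 2 * u ^ (13 / 20 : ℝ) →
      x ^ (7 / 10 : ℝ) ≤ 2 * u ^ (91 / 200 : ℝ)) ∧ C ≤ u ^ (13 / 20 : ℝ) := by
  have hp : ∀ p : ℝ, 0 < p → Tendsto (fun x : ℝ => x ^ p) atTop atTop :=
    fun p hp => tendsto_rpow_atTop hp
  filter_upwards [(hp (1 / 20) (by norm_num)).eventually_ge_atTop 40,
    (hp (13 / 20) (by norm_num)).eventually_ge_atTop (2 * |x₂| + 4),
    (hp (13 / 20) (by norm_num)).eventually_ge_atTop C,
    eventually_ge_atTop (1 : ℝ)] with u h1 h2 hC h3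
  have hu0 : 0 < u := by linarith
  refine ⟨?_, h2, ?_, ?_, hC⟩
  · have h4 : u ^ (13 / 20 : ℝ) = u ^ (3 / 5 : ℝ) * u ^ (1 / 20 : ℝ) := by
      rw [← Real.rpow_add hu0]
      norm_num
    have h5 : 0 < u ^ (3 / 5 : ℝ) := Real.rpow_pos_of_pos hu0 _
    rw [h4]
    nlinarith
  · rw [Real.sqrt_eq_rpow]
    exact Real.rpow_le_rpow_of_exponent_le h3 (by norm_num)
  · intro x hx0 hx
    have h4 : x ^ (7 / 10 : ℝ) ≤ (2 * u ^ (13 / 20 : ℝ)) ^ (7 / 10 : ℝ) :=
      Real.rpow_le_rpow hx0 hx (by norm_num)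
    refine h4.trans ?_
    rw [Real.mul_rpow (by norm_num) (by positivity), ← Real.rpow_mul hu0.le]
    have h5 : (2 : ℝ) ^ (7 / 10 : ℝ) ≤ 2 := by
      nth_rewrite 2 [← Real.rpow_one (2 : ℝ)]
      exact Real.rpow_le_rpow_of_exponent_le (by norm_num) (by norm_num)
    have h6 : (13 / 20 : ℝ) * (7 / 10) = 91 / 200 := by norm_num
    rw [h6]
    exact mul_le_mul_of_nonneg_right h5 (by positivity)

theorem tendsto_p : Tendsto (fun u : ℝ => u ^ (91 / 200 : ℝ) / √u) atTop (𝓝 0) := by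
  have h2 : Tendsto (fun u : ℝ => u ^ (-(9 / 200) : ℝ)) atTop (𝓝 0) :=
    tendsto_rpow_neg_atTop (by norm_num)
  refine h2.congr' ?_
  filter_upwards [eventually_gt_atTop (0 : ℝ)] with u hu
  rw [Real.sqrt_eq_rpow, ← Real.rpow_sub hu]
  norm_num

theorem hoeff_bw {K : ℕ} {Y : ℝ} (hY : 0 ≤ Y) [DecidablePred fun k : ℕ => Y / th ≤ |(k : ℝ) - K / 2|] :
    ∑ v ∈ (range (K + 1)).filter (fun k : ℕ => Y / th ≤ |(k : ℝ) - K / 2|), bw K v ≤
      2 * Real.exp (-(2 * (Y / th) ^ 2 / K)) := by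
  have hth := thp
  have h1 := Pool.Agent.Lib.MP_0a5adf_nt.TP.H15.hoeff K (Y / th) (by positivity)
  have h6 : ∑ v ∈ (range (K + 1)).filter (fun k : ℕ => Y / th ≤ |(k : ℝ) - K / 2|), bw K v =
      (∑ k ∈ (range (K + 1)).filter (fun k : ℕ => Y / th ≤ |(k : ℝ) - K / 2|),
        (K.choose k : ℝ)) / 2 ^ K := by
    unfold bw
    rw [Finset.sum_div]
  rw [h6, div_le_iff₀ (by positivity)]
  have h7 : ∑ k ∈ (range (K + 1)).filter (fun k : ℕ => Y / th ≤ |(k : ℝ) - K / 2|),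
      (K.choose k : ℝ) ≤ 2 * 2 ^ K * Real.exp (-(2 * (Y / th) ^ 2 / K)) := by
    convert h1
  linarith

/-- the positions of the typical paths -/
theorem pos_typ {K v : ℕ} {u Y : ℝ} (h : ¬ Y / th ≤ |(v : ℝ) - K / 2|) :
    |u - K + th * v - (u - mu * K)| < Y := by
  have hth := thp
  rw [not_le] at h
  have h5 : u - K + th * v - (u - mu * K) = th * ((v : ℝ) - K / 2) := by
    unfold mu
    ring
  rw [h5, abs_mul, abs_of_pos hth]
  rw [lt_div_iff₀ hth] at h
  linarith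

open Classical in
/-- lower bound of an average by the distribution function -/
theorem PJ_dist_low {K : ℕ} {f : ℝ → ℝ} {u Y m A : ℝ} (hf : ∀ y, 0 ≤ f y) (hY : 0 ≤ Y)
    (hm0 : 0 ≤ m) (hm : m ≤ 2)
    (h : ∀ v : ℕ, (v : ℝ) ≤ A → |u - K + th * v - (u - mu * K)| < Y →
      m ≤ f (u - K + th * v)) :
    m * ∑ v ∈ (range (K + 1)).filter (fun v : ℕ => (v : ℝ) ≤ A), bw K v -
      4 * Real.exp (-(2 * (Y / th) ^ 2 / K)) ≤ PJ K f u := by
  have h1 := hoeff_bw (K := K) hY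
  have h2 : ∑ v ∈ (range (K + 1)).filter (fun v : ℕ => (v : ℝ) ≤ A), m * bw K v ≤
      ∑ v ∈ range (K + 1), (bw K v * f (u - K + th * v) +
        if Y / th ≤ |(v : ℝ) - K / 2| then 2 * bw K v else 0) := by
    rw [Finset.sum_filter]
    apply Finset.sum_le_sum
    intro v _
    have hb := bw_nn K v
    have hfv := mul_nonneg hb (hf (u - K + th * v))
    split_ifs with h3 h4 h4
    · have : m * bw K v ≤ 2 * bw K v := mul_le_mul_of_nonneg_right hm hb
      linarith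
    · have h5 := mul_le_mul_of_nonneg_left (h v h3 (pos_typ h4)) hb
      linarith
    · linarith
    · linarith
  rw [← Finset.mul_sum, Finset.sum_add_distrib, ← Finset.sum_filter, ← Finset.mul_sum] at h2
  unfold PJ
  linarith

open Classical in
/-- upper bound of an average by the distribution function -/
theorem PJ_dist_up {K : ℕ} {f : ℝ → ℝ} {u Y m e A : ℝ} (hf : ∀ y, f y ≤ 2) (hY : 0 ≤ Y)
    (hm0 : 0 ≤ m) (he : 0 ≤ e)
    (h : ∀ v : ℕ, |u - K + th * v - (u - mu * K)| < Y → f (u - K + th * v) ≤ m)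
    (h' : ∀ v : ℕ, A < (v : ℝ) → |u - K + th * v - (u - mu * K)| < Y →
      f (u - K + th * v) ≤ e) :
    PJ K f u ≤ m * ∑ v ∈ (range (K + 1)).filter (fun v : ℕ => (v : ℝ) ≤ A), bw K v + e +
      4 * Real.exp (-(2 * (Y / th) ^ 2 / K)) := by
  have h1 := hoeff_bw (K := K) hY
  have h2 : ∑ v ∈ range (K + 1), bw K v * f (u - K + th * v) ≤
      ∑ v ∈ range (K + 1), (((if (v : ℝ) ≤ A then m * bw K v else 0) + e * bw K v) +
        if Y / th ≤ |(v : ℝ) - K / 2| then 2 * bw K v else 0) := by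
    apply Finset.sum_le_sum
    intro v _
    have hb := bw_nn K v
    have hmb := mul_nonneg hm0 hb
    have heb := mul_nonneg he hb
    have hfv := mul_le_mul_of_nonneg_left (hf (u - K + th * v)) hb
    by_cases h4 : Y / th ≤ |(v : ℝ) - K / 2|
    · rw [if_pos h4]
      split_ifs <;> linarith
    · rw [if_neg h4]
      split_ifs with h3
      · have h5 := mul_le_mul_of_nonneg_left (h v (pos_typ h4)) hb
        linarith
      · have h5 := mul_le_mul_of_nonneg_left (h' v (not_le.1 h3) (pos_typ h4)) hb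
        linarith
  rw [Finset.sum_add_distrib, Finset.sum_add_distrib, ← Finset.sum_filter, ← Finset.sum_filter,
    ← Finset.mul_sum, ← Finset.mul_sum, ← Finset.mul_sum, H50.sum_bw] at h2
  unfold PJ
  linarith

/-- GAUSS, lower bound -/
theorem gauss_low {α : Type*} {l : Filter α} {F : ℕ → ℝ → ℝ} {lo C u₀ D : ℝ} (hC : 0 ≤ C)
    (hF : TGF F lo C u₀) (hD0 : 0 ≤ D) (hD : D ≤ 2) (hB : Base F D) {u : α → ℝ} {t : α → ℕ}
    {z : ℝ} (hu : Tendsto u l atTop)
    (ht : Tendsto (fun a => (2 * mu * t a - 2 * u a) / (th * √(u a / mu))) l (𝓝 z))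
    (η : ℝ) (hη : 0 < η) : ∀ᶠ a in l, D * PhiG z - η ≤ F (t a) (u a) := by
  classical
  have hmu := mu_lo
  have hmu0 := mu_pos
  have hmu1 := mu_le
  have hth := thp
  have hPhi0 := PhiG_nonneg z
  have hPhi1 := PhiG_le_one z
  rcases lt_or_ge D (η / 4) with hDη | hDη
  · filter_upwards with a
    have h1 : D * PhiG z ≤ D := mul_le_of_le_one_right hD0 hPhi1
    have h2 := hF.nn (t a) (u a)
    linarith
  have hswl := swl_low hC hF hD hB (η / 4) (by linarith)
  rw [eventually_atTop] at hswl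
  obtain ⟨x₂, hx₂⟩ := hswl
  -- the correction term
  obtain ⟨r, hr⟩ : ∃ r : α → ℝ, r = fun a => -(2 * mu * u a ^ (91 / 200 : ℝ)) := ⟨_, rfl⟩
  have hr0 : Tendsto (fun a => r a / √(u a)) l (𝓝 0) := by
    have h1 := (tendsto_p.comp hu).const_mul (-(2 * mu))
    rw [mul_zero] at h1
    refine h1.congr ?_
    intro a
    rw [hr]
    simp only [Function.comp_apply]
    ring
  have hA := limA hu ht hr0
  -- `t ≥ K`
  have hKt : ∀ᶠ a in l, KK (u a) ≤ t a := by
    have h1 := ht.eventually (lt_mem_nhds (show z - 1 < z by linarith))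
    have h2 : Tendsto (fun x : ℝ => x ^ (3 / 20 : ℝ)) atTop atTop :=
      tendsto_rpow_atTop (by norm_num)
    filter_upwards [h1, hu.eventually_ge_atTop 1,
      (h2.comp hu).eventually_ge_atTop (|z - 1| * th * √(1 / mu))] with a ha ha1 ha2
    simp only [Function.comp_apply] at ha2
    have hu0 : 0 < u a := by linarith
    have hs : 0 < √(u a / mu) := Real.sqrt_pos.2 (by positivity)
    rw [lt_div_iff₀ (by positivity)] at ha
    have h3 := KK_le ha1
    have h4 : √(u a / mu) = √(u a) * √(1 / mu) := by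
      rw [← Real.sqrt_mul hu0.le]
      congr 1
      ring
    have h5 : |z - 1| * (th * √(u a / mu)) ≤ u a ^ (13 / 20 : ℝ) := by
      have h6 : u a ^ (13 / 20 : ℝ) = u a ^ (3 / 20 : ℝ) * √(u a) := by
        rw [Real.sqrt_eq_rpow, ← Real.rpow_add hu0]
        norm_num
      rw [h6, h4]
      calc |z - 1| * (th * (√(u a) * √(1 / mu))) = |z - 1| * th * √(1 / mu) * √(u a) := by ring
        _ ≤ u a ^ (3 / 20 : ℝ) * √(u a) := mul_le_mul_of_nonneg_right ha2 (Real.sqrt_nonneg _)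
    have h7 : -|z - 1| ≤ z - 1 := neg_abs_le _
    have h8 : -(u a ^ (13 / 20 : ℝ)) ≤ (z - 1) * (th * √(u a / mu)) := by
      have h9 : -|z - 1| * (th * √(u a / mu)) ≤ (z - 1) * (th * √(u a / mu)) :=
        mul_le_mul_of_nonneg_right h7 (by positivity)
      linarith
    have h10 : mu * KK (u a) ≤ mu * t a := by
      have : 0 < u a ^ (13 / 20 : ℝ) := Real.rpow_pos_of_pos hu0 _
      linarith
    exact_mod_cast le_of_mul_le_mul_left h10 hmu0
  -- the sums converge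
  obtain ⟨A, hAdef⟩ : ∃ A : α → ℝ, A = fun a =>
      ((KK (u a) : ℝ) - u a + mu * ((t a - KK (u a) : ℕ) : ℝ) + r a) / th := ⟨_, rfl⟩
  have hclt : Tendsto (fun a => ∑ v ∈ (range (KK (u a) + 1)).filter
      (fun v : ℕ => (v : ℝ) ≤ A a), bw (KK (u a)) v) l (𝓝 (PhiG z)) := by
    apply binCLT (tendsto_KK.comp hu)
    refine hA.congr' ?_
    filter_upwards [hKt] with a ha
    rw [hAdef]
    simp only [Function.comp_apply]
    rw [A_eq (KK (u a)) (t a) (t a - KK (u a)) (u a) (r a) (by omega)]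
  have hclt' := hclt.eventually (lt_mem_nhds (show PhiG z - η / 16 < PhiG z by linarith))
  filter_upwards [hKt, hclt', hu.eventually (km C u₀ hC), hu.eventually ev_exp,
    hu.eventually (ev_geom (4 * |lo|) x₂), hu.eventually_ge_atTop 1,
    (tendsto_KK.comp hu).eventually_gt_atTop 0,
    hu.eventually_ge_atTop ((6 * (C + 8) + 4) * (4 / η))] with a hK hΦ hkm hexp hg hu1 hK0 huη
  simp only [Function.comp_apply] at hK0
  obtain ⟨hg1, hg2, hg3, hg4, hg5⟩ := hg
  have hu0 : 0 < u a := by linarith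
  have h35 : 0 < u a ^ (3 / 5 : ℝ) := Real.rpow_pos_of_pos hu0 _
  have hp0 : 0 < u a ^ (91 / 200 : ℝ) := Real.rpow_pos_of_pos hu0 _
  obtain ⟨s, hs⟩ : ∃ s, t a = s + KK (u a) := ⟨t a - KK (u a), by omega⟩
  have hsub : t a - KK (u a) = s := by omega
  have hKle := KK_le hu1
  have hKlt := lt_KK (u a)
  have hlo := le_abs_self lo
  have hlo' := abs_nonneg lo
  have hmax : max (√(u a)) (10 / 9 * lo) + u a ^ (3 / 5 : ℝ) ≤ u a - mu * KK (u a) := by
    have h4 : max (√(u a)) (10 / 9 * lo) ≤ u a ^ (3 / 5 : ℝ) + 10 / 9 * |lo| := by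
      apply max_le <;> linarith
    linarith
  have h1 := hkm F lo hF s (KK (u a)) hmax
  rw [← hs] at h1
  have h2 := PJ_dist_low (K := KK (u a)) (f := F s) (u := u a) (Y := u a ^ (3 / 5 : ℝ))
    (m := D - η / 4) (A := A a) (hF.nn s) h35.le (by linarith) (by linarith) (by
      intro v hv hy
      rw [abs_lt] at hy
      apply hx₂
      · have := le_abs_self x₂
        linarith [hy.1, abs_nonneg x₂]
      · have hx0 : 0 ≤ u a - KK (u a) + th * v := by linarith [hy.1, abs_nonneg x₂]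
        have h3 := hg4 (u a - KK (u a) + th * v) hx0 (by linarith [hy.2, abs_nonneg x₂])
        rw [hAdef] at hv
        simp only at hv
        rw [le_div_iff₀ hth, hsub, hr] at hv
        simp only at hv
        have h4 : mu * (u a - KK (u a) + th * v) ^ (7 / 10 : ℝ) ≤
            mu * (2 * u a ^ (91 / 200 : ℝ)) := mul_le_mul_of_nonneg_left h3 hmu0.le
        linarith)
  have hK5 : ((KK (u a) : ℕ) : ℝ) ≤ 5 * u a := by
    have h0 : (0 : ℝ) ≤ KK (u a) := Nat.cast_nonneg _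
    have h65 : 0 < u a ^ (13 / 20 : ℝ) := Real.rpow_pos_of_pos hu0 _
    nlinarith
  have h3 := hexp (KK (u a)) (by exact_mod_cast hK0) hK5
  have h4 := (abs_le.1 h1).1
  have hsmall : 6 * (C + 8) / u a + 4 * (1 / u a ^ 2) ≤ η / 4 := by
    have h6 : (1 : ℝ) / u a ^ 2 ≤ 1 / u a := by
      apply div_le_div_of_nonneg_left (by norm_num) hu0
      nlinarith
    have h7 : 6 * (C + 8) / u a + 4 * (1 / u a) ≤ η / 4 := by
      have h8 : 6 * (C + 8) / u a + 4 * (1 / u a) = (6 * (C + 8) + 4) / u a := by ring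
      rw [h8, div_le_iff₀ hu0]
      have h9 : (6 * (C + 8) + 4) * (4 / η) = ((6 * (C + 8) + 4) * 4) / η := by ring
      rw [h9, div_le_iff₀ hη] at huη
      linarith
    linarith
  have h5 : D * PhiG z - η / 2 ≤ (D - η / 4) * ∑ v ∈ (range (KK (u a) + 1)).filter
      (fun v : ℕ => (v : ℝ) ≤ A a), bw (KK (u a)) v := by
    have h6 : (D - η / 4) * (PhiG z - η / 16) ≤ (D - η / 4) * ∑ v ∈ (range (KK (u a) + 1)).filter
        (fun v : ℕ => (v : ℝ) ≤ A a), bw (KK (u a)) v :=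
      mul_le_mul_of_nonneg_left hΦ.le (by linarith)
    nlinarith
  linarith

/-- GAUSS, upper bound, uniform in the family -/
theorem gauss_up {α : Type*} {l : Filter α} {F : α → ℕ → ℝ → ℝ} {lo : α → ℝ} {C u₀ D : ℝ}
    (hC : 0 ≤ C) (hF : ∀ a, TGF (F a) (lo a) C u₀) (hD0 : 0 ≤ D) (hD : D ≤ 2)
    (hup : ∀ η : ℝ, 0 < η → ∃ x₀ : ℝ, ∀ᶠ a in l, ∀ (t : ℕ) (x : ℝ), x₀ ≤ x → F a t x ≤ D + η)
    {u : α → ℝ} {t : α → ℕ} {z : ℝ} (hu : Tendsto u l atTop)
    (hlo : Tendsto (fun a => lo a / √(u a)) l (𝓝 0))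
    (ht : Tendsto (fun a => (2 * mu * t a - 2 * u a) / (th * √(u a / mu))) l (𝓝 z))
    (η : ℝ) (hη : 0 < η) : ∀ᶠ a in l, F a (t a) (u a) ≤ D * PhiG z + η := by
  classical
  have hmu := mu_lo
  have hmu0 := mu_pos
  have hmu1 := mu_le
  have hth := thp
  have hPhi0 := PhiG_nonneg z
  have hPhi1 := PhiG_le_one z
  obtain ⟨x₀, hx₀⟩ := hup (η / 8) (by linarith)
  have hswl := swl_up C u₀ hC
  rw [eventually_atTop] at hswl
  obtain ⟨x₁, hx₁⟩ := hswl
  obtain ⟨x₂, hx₂⟩ : ∃ x₂, x₂ = max (max x₀ x₁) (6 * (C + 9) * (8 / η)) := ⟨_, rfl⟩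
  have hx20 : x₀ ≤ x₂ := by
    rw [hx₂]
    exact (le_max_left _ _).trans (le_max_left _ _)
  have hx21 : x₁ ≤ x₂ := by
    rw [hx₂]
    exact (le_max_right _ _).trans (le_max_left _ _)
  have hx22 : 6 * (C + 9) * (8 / η) ≤ x₂ := by
    rw [hx₂]
    exact le_max_right _ _
  -- the correction term
  obtain ⟨r, hr⟩ : ∃ r : α → ℝ, r = fun a => 2 * lo a + 2 * mu * u a ^ (91 / 200 : ℝ) := ⟨_, rfl⟩
  have hr0 : Tendsto (fun a => r a / √(u a)) l (𝓝 0) := by
    have h1 := (hlo.const_mul 2).add ((tendsto_p.comp hu).const_mul (2 * mu))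
    rw [mul_zero, mul_zero, add_zero] at h1
    refine h1.congr ?_
    intro a
    rw [hr]
    simp only [Function.comp_apply]
    ring
  have hA := limA hu ht hr0
  -- `t ≥ K`
  have hKt : ∀ᶠ a in l, KK (u a) ≤ t a := by
    have h1 := ht.eventually (lt_mem_nhds (show z - 1 < z by linarith))
    have h2 : Tendsto (fun x : ℝ => x ^ (3 / 20 : ℝ)) atTop atTop :=
      tendsto_rpow_atTop (by norm_num)
    filter_upwards [h1, hu.eventually_ge_atTop 1,
      (h2.comp hu).eventually_ge_atTop (|z - 1| * th * √(1 / mu))] with a ha ha1 ha2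
    simp only [Function.comp_apply] at ha2
    have hu0 : 0 < u a := by linarith
    have hs : 0 < √(u a / mu) := Real.sqrt_pos.2 (by positivity)
    rw [lt_div_iff₀ (by positivity)] at ha
    have h3 := KK_le ha1
    have h4 : √(u a / mu) = √(u a) * √(1 / mu) := by
      rw [← Real.sqrt_mul hu0.le]
      congr 1
      ring
    have h5 : |z - 1| * (th * √(u a / mu)) ≤ u a ^ (13 / 20 : ℝ) := by
      have h6 : u a ^ (13 / 20 : ℝ) = u a ^ (3 / 20 : ℝ) * √(u a) := by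
        rw [Real.sqrt_eq_rpow, ← Real.rpow_add hu0]
        norm_num
      rw [h6, h4]
      calc |z - 1| * (th * (√(u a) * √(1 / mu))) = |z - 1| * th * √(1 / mu) * √(u a) := by ring
        _ ≤ u a ^ (3 / 20 : ℝ) * √(u a) := mul_le_mul_of_nonneg_right ha2 (Real.sqrt_nonneg _)
    have h7 : -|z - 1| ≤ z - 1 := neg_abs_le _
    have h8 : -(u a ^ (13 / 20 : ℝ)) ≤ (z - 1) * (th * √(u a / mu)) := by
      have h9 : -|z - 1| * (th * √(u a / mu)) ≤ (z - 1) * (th * √(u a / mu)) :=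
        mul_le_mul_of_nonneg_right h7 (by positivity)
      linarith
    have h10 : mu * KK (u a) ≤ mu * t a := by
      have : 0 < u a ^ (13 / 20 : ℝ) := Real.rpow_pos_of_pos hu0 _
      linarith
    exact_mod_cast le_of_mul_le_mul_left h10 hmu0
  obtain ⟨A, hAdef⟩ : ∃ A : α → ℝ, A = fun a =>
      ((KK (u a) : ℝ) - u a + mu * ((t a - KK (u a) : ℕ) : ℝ) + r a) / th := ⟨_, rfl⟩
  have hclt : Tendsto (fun a => ∑ v ∈ (range (KK (u a) + 1)).filter
      (fun v : ℕ => (v : ℝ) ≤ A a), bw (KK (u a)) v) l (𝓝 (PhiG z)) := by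
    apply binCLT (tendsto_KK.comp hu)
    refine hA.congr' ?_
    filter_upwards [hKt] with a ha
    rw [hAdef]
    simp only [Function.comp_apply]
    rw [A_eq (KK (u a)) (t a) (t a - KK (u a)) (u a) (r a) (by omega)]
  have hclt' := hclt.eventually (gt_mem_nhds (show PhiG z < PhiG z + η / 16 by linarith))
  have hlo1 := hlo.eventually (gt_mem_nhds (show (0 : ℝ) < 1 by norm_num))
  filter_upwards [hKt, hclt', hu.eventually (km C u₀ hC), hu.eventually ev_exp,
    hu.eventually (ev_geom 0 x₂), hu.eventually_ge_atTop 1,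
    (tendsto_KK.comp hu).eventually_gt_atTop 0,
    hu.eventually_ge_atTop ((6 * (C + 8) + 4) * (4 / η)), hx₀, hlo1] with
    a hK hΦ hkm hexp hg hu1 hK0 huη hxa hloa
  simp only [Function.comp_apply] at hK0
  obtain ⟨hg1, hg2, hg3, hg4, -⟩ := hg
  have hu0 : 0 < u a := by linarith
  have hsu : 0 < √(u a) := Real.sqrt_pos.2 hu0
  rw [div_lt_one hsu] at hloa
  have h35 : 0 < u a ^ (3 / 5 : ℝ) := Real.rpow_pos_of_pos hu0 _
  have hp0 : 0 < u a ^ (91 / 200 : ℝ) := Real.rpow_pos_of_pos hu0 _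
  obtain ⟨s, hs⟩ : ∃ s, t a = s + KK (u a) := ⟨t a - KK (u a), by omega⟩
  have hsub : t a - KK (u a) = s := by omega
  have hKle := KK_le hu1
  have hKlt := lt_KK (u a)
  have hmax : max (√(u a)) (10 / 9 * lo a) + u a ^ (3 / 5 : ℝ) ≤ u a - mu * KK (u a) := by
    have h4 : max (√(u a)) (10 / 9 * lo a) ≤ 2 * u a ^ (3 / 5 : ℝ) := by
      apply max_le <;> linarith
    linarith
  have h1 := hkm (F a) (lo a) (hF a) s (KK (u a)) hmax
  rw [← hs] at h1
  have hpos : ∀ v : ℕ, |u a - KK (u a) + th * v - (u a - mu * KK (u a))| <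
      u a ^ (3 / 5 : ℝ) → x₂ ≤ u a - KK (u a) + th * v ∧
      u a - KK (u a) + th * v ≤ 2 * u a ^ (13 / 20 : ℝ) ∧ 1 ≤ u a - KK (u a) + th * v := by
    intro v hy
    rw [abs_lt] at hy
    have := le_abs_self x₂
    refine ⟨?_, ?_, ?_⟩ <;> linarith [hy.1, hy.2, abs_nonneg x₂]
  have h2 := PJ_dist_up (K := KK (u a)) (f := F a s) (u := u a) (Y := u a ^ (3 / 5 : ℝ))
    (m := D + η / 8) (e := η / 8) (A := A a) ((hF a).le2 s) h35.le (by linarith) (by linarith)
    (fun v hy => hxa s _ (hx20.trans (hpos v hy).1)) (by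
      intro v hv hy
      obtain ⟨hp1, hp2, hp3⟩ := hpos v hy
      have h3 := hx₁ _ (hx21.trans hp1) (F a) (lo a) (hF a) s (by
        have h4 := hg4 _ (by linarith) hp2
        rw [hAdef] at hv
        simp only at hv
        rw [div_lt_iff₀ hth, hsub, hr] at hv
        simp only at hv
        have h5 : mu * (u a - KK (u a) + th * v) ^ (7 / 10 : ℝ) ≤
            mu * (2 * u a ^ (91 / 200 : ℝ)) := mul_le_mul_of_nonneg_left h4 hmu0.le
        linarith)
      refine h3.trans ?_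
      rw [div_le_iff₀ (by linarith)]
      have h6 : 6 * (C + 9) * (8 / η) ≤ u a - KK (u a) + th * v := hx22.trans hp1
      have h7 : 6 * (C + 9) * (8 / η) = (6 * (C + 9) * 8) / η := by ring
      rw [h7, div_le_iff₀ hη] at h6
      linarith)
  have hK5 : ((KK (u a) : ℕ) : ℝ) ≤ 5 * u a := by
    have h0 : (0 : ℝ) ≤ KK (u a) := Nat.cast_nonneg _
    have h65 : 0 < u a ^ (13 / 20 : ℝ) := Real.rpow_pos_of_pos hu0 _
    nlinarith
  have h3 := hexp (KK (u a)) (by exact_mod_cast hK0) hK5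
  have h4 := (abs_le.1 h1).2
  have hsmall : 6 * (C + 8) / u a + 4 * (1 / u a ^ 2) ≤ η / 4 := by
    have h6 : (1 : ℝ) / u a ^ 2 ≤ 1 / u a := by
      apply div_le_div_of_nonneg_left (by norm_num) hu0
      nlinarith
    have h7 : 6 * (C + 8) / u a + 4 * (1 / u a) ≤ η / 4 := by
      have h8 : 6 * (C + 8) / u a + 4 * (1 / u a) = (6 * (C + 8) + 4) / u a := by ring
      rw [h8, div_le_iff₀ hu0]
      have h9 : (6 * (C + 8) + 4) * (4 / η) = ((6 * (C + 8) + 4) * 4) / η := by ring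
      rw [h9, div_le_iff₀ hη] at huη
      linarith
    linarith
  have hS1 : ∑ v ∈ (range (KK (u a) + 1)).filter (fun v : ℕ => (v : ℝ) ≤ A a),
      bw (KK (u a)) v ≤ 1 := by
    rw [← H50.sum_bw (KK (u a))]
    exact Finset.sum_le_sum_of_subset_of_nonneg (Finset.filter_subset _ _)
      fun v _ _ => bw_nn _ v
  have hS0 : 0 ≤ ∑ v ∈ (range (KK (u a) + 1)).filter (fun v : ℕ => (v : ℝ) ≤ A a),
      bw (KK (u a)) v := Finset.sum_nonneg fun v _ => bw_nn _ v
  have h5 : (D + η / 8) * ∑ v ∈ (range (KK (u a) + 1)).filter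
      (fun v : ℕ => (v : ℝ) ≤ A a), bw (KK (u a)) v ≤ D * PhiG z + η / 4 := by
    have h6 : D * ∑ v ∈ (range (KK (u a) + 1)).filter (fun v : ℕ => (v : ℝ) ≤ A a),
        bw (KK (u a)) v ≤ D * (PhiG z + η / 16) := mul_le_mul_of_nonneg_left hΦ.le hD0
    have h7 : D * (η / 16) ≤ 2 * (η / 16) := mul_le_mul_of_nonneg_right hD (by linarith)
    nlinarith
  linarith

end Pool.Agent.Lib.MP_edb5be_nt.ND.H82
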